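import Mathlib

/-!
# Combinatorial lemmas for the improved lower bound for the gcd recursion
-/

set_option autoImplicit false

namespace Pool.Agent.Helper45K9.GR

open Finset

/-- the gcd with a least common multiple divides the product of the gcds -/
lemma gcd_lcm_dvd {ι : Type*} [DecidableEq ι] (a : ℕ) (I : Finset ι) (μ : ι → ℕ) :
    Nat.gcd a (I.lcm μ) ∣ ∏ j ∈ I, Nat.gcd a (μ j) := by
  induction I using Finset.induction_on with
  | empty => simp
  | insert i I hi ih =>
    rw [Finset.lcm_insert, Finset.prod_insert hi]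
    have h1 : Nat.gcd a (GCDMonoid.lcm (μ i) (I.lcm μ)) ∣ Nat.gcd a (μ i * I.lcm μ) := by
      apply Nat.gcd_dvd_gcd_of_dvd_right
      exact Nat.lcm_dvd_mul _ _
    have h2 : Nat.gcd a (μ i * I.lcm μ) ∣ Nat.gcd a (μ i) * Nat.gcd a (I.lcm μ) :=
      Nat.gcd_mul_right_dvd_mul_gcd _ _ _
    exact (h1.trans h2).trans (Nat.mul_dvd_mul_left _ ih)

/-- a product of nearly pairwise coprime numbers is not much larger than the least common multiple -/
lemma prod_le_lcm {ι : Type*} [DecidableEq ι] (I : Finset ι) (μ : ι → ℕ) (B : ℕ) (hB : 1 ≤ B)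
    (hpos : ∀ i ∈ I, 1 ≤ μ i)
    (h : ∀ i ∈ I, ∀ j ∈ I, i ≠ j → Nat.gcd (μ i) (μ j) ≤ B) :
    ∏ i ∈ I, μ i ≤ I.lcm μ * B ^ (I.card ^ 2) := by
  induction I using Finset.induction_on with
  | empty => simp
  | insert i I hi ih =>
    have ih' := ih (fun k hk => hpos k (mem_insert_of_mem hk))
      (fun k hk j hj hkj => h k (mem_insert_of_mem hk) j (mem_insert_of_mem hj) hkj)
    rw [Finset.lcm_insert, Finset.prod_insert hi, Finset.card_insert_of_notMem hi]
    have h1 : Nat.gcd (μ i) (I.lcm μ) * Nat.lcm (μ i) (I.lcm μ) = μ i * I.lcm μ :=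
      Nat.gcd_mul_lcm _ _
    have h2 : Nat.gcd (μ i) (I.lcm μ) ≤ B ^ I.card := by
      have h3 : ∏ j ∈ I, Nat.gcd (μ i) (μ j) ≤ B ^ I.card := by
        apply Finset.prod_le_pow_card
        intro j hj
        exact h i (mem_insert_self _ _) j (mem_insert_of_mem hj) (by rintro rfl; exact hi hj)
      refine (Nat.le_of_dvd ?_ (gcd_lcm_dvd (μ i) I μ)).trans h3
      apply Finset.prod_pos
      intro j _
      exact Nat.gcd_pos_of_pos_left _ (hpos i (mem_insert_self _ _))
    calc μ i * ∏ j ∈ I, μ j ≤ μ i * (I.lcm μ * B ^ (I.card ^ 2)) := Nat.mul_le_mul_left _ ih'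
      _ = (Nat.gcd (μ i) (I.lcm μ) * Nat.lcm (μ i) (I.lcm μ)) * B ^ (I.card ^ 2) := by
          rw [h1]; ring
      _ ≤ (B ^ I.card * Nat.lcm (μ i) (I.lcm μ)) * B ^ (I.card ^ 2) := by gcongr
      _ = Nat.lcm (μ i) (I.lcm μ) * B ^ (I.card + I.card ^ 2) := by rw [pow_add]; ring
      _ ≤ Nat.lcm (μ i) (I.lcm μ) * B ^ ((I.card + 1) ^ 2) := by
          apply Nat.mul_le_mul_left
          apply Nat.pow_le_pow_right hB
          nlinarith
      _ = _ := rfl

/-- the number of elements of an arithmetic progression in an interval -/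
lemma card_prog (F : Finset ℕ) (n₀ T Q : ℕ) (hQ : 1 ≤ Q)
    (h : ∀ n ∈ F, n₀ ≤ n ∧ n ≤ n₀ + T ∧ Q ∣ n - n₀) : F.card ≤ T / Q + 1 := by
  have : F.card ≤ (range (T / Q + 1)).card := by
    apply card_le_card_of_injOn (fun n => (n - n₀) / Q)
    · intro n hn
      obtain ⟨h1, h2, -⟩ := h n hn
      simp only [coe_range, Set.mem_Iio]
      exact Nat.lt_succ_of_le (Nat.div_le_div_right (by omega))
    · intro n₁ h1 n₂ h2 heq
      obtain ⟨a1, -, a3⟩ := h n₁ h1
      obtain ⟨b1, -, b3⟩ := h n₂ h2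
      simp only at heq
      have e1 := Nat.div_mul_cancel a3
      have e2 := Nat.div_mul_cancel b3
      rw [heq, e2] at e1
      omega
  simpa using this

/-- sum over the small subsets of the products of weights -/
lemma sum_powerset_le {α : Type*} [DecidableEq α] (Ω : Finset α) (w : α → ℝ) (hw : ∀ p, 0 ≤ w p)
    (σ : ℝ) (hσ : 1 ≤ σ) (hs : ∑ p ∈ Ω, w p ≤ σ) (r : ℕ) :
    ∑ P ∈ Ω.powerset.filter (fun P => P.card ≤ r), ∏ p ∈ P, w p ≤ 3 * σ ^ r := by
  have hσ0 : 0 < σ := by linarith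
  have h1 : ∀ P ∈ Ω.powerset.filter (fun P => P.card ≤ r),
      ∏ p ∈ P, w p ≤ σ ^ r * ∏ p ∈ P, (w p / σ) := by
    intro P hP
    rw [mem_filter] at hP
    have e1 : ∏ p ∈ P, w p = σ ^ P.card * ∏ p ∈ P, (w p / σ) := by
      rw [← Finset.prod_const, ← Finset.prod_mul_distrib]
      apply Finset.prod_congr rfl
      intro p _
      field_simp
    rw [e1]
    apply mul_le_mul_of_nonneg_right
    · exact pow_le_pow_right₀ hσ hP.2
    · exact Finset.prod_nonneg (fun p _ => div_nonneg (hw p) hσ0.le)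
  calc ∑ P ∈ Ω.powerset.filter (fun P => P.card ≤ r), ∏ p ∈ P, w p
      ≤ ∑ P ∈ Ω.powerset.filter (fun P => P.card ≤ r), σ ^ r * ∏ p ∈ P, (w p / σ) :=
        Finset.sum_le_sum h1
    _ ≤ ∑ P ∈ Ω.powerset, σ ^ r * ∏ p ∈ P, (w p / σ) := by
        apply Finset.sum_le_sum_of_subset_of_nonneg (filter_subset _ _)
        intro P _ _
        have : 0 ≤ ∏ p ∈ P, (w p / σ) :=
          Finset.prod_nonneg (fun p _ => div_nonneg (hw p) hσ0.le)
        positivity
    _ = σ ^ r * ∏ p ∈ Ω, (1 + w p / σ) := by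
        rw [← Finset.mul_sum, Finset.prod_one_add]
    _ ≤ σ ^ r * Real.exp 1 := by
        apply mul_le_mul_of_nonneg_left _ (by positivity)
        calc ∏ p ∈ Ω, (1 + w p / σ) ≤ ∏ p ∈ Ω, Real.exp (w p / σ) := by
              apply Finset.prod_le_prod
              · intro p _
                have := div_nonneg (hw p) hσ0.le
                linarith
              · intro p _
                rw [add_comm]
                exact Real.add_one_le_exp _
          _ = Real.exp (∑ p ∈ Ω, w p / σ) := by rw [Real.exp_sum]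
          _ ≤ Real.exp 1 := by
              apply Real.exp_le_exp.2
              rw [← Finset.sum_div, div_le_one hσ0]
              exact hs
    _ ≤ σ ^ r * 3 := by
        apply mul_le_mul_of_nonneg_left _ (by positivity)
        have := Real.exp_one_lt_d9
        linarith
    _ = 3 * σ ^ r := by ring

lemma harm_le (X : ℕ) : ∑ μ ∈ Icc 1 X, (1 : ℝ) / μ ≤ 1 + Real.log X := by
  have h := harmonic_le_one_add_log X
  have e : ((harmonic X : ℚ) : ℝ) = ∑ μ ∈ Icc 1 X, (1 : ℝ) / μ := by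
    rw [harmonic_eq_sum_Icc]
    push_cast
    apply Finset.sum_congr rfl
    intro i _
    rw [one_div]
  rw [← e]
  exact h

end Pool.Agent.Helper45K9.GR
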