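import Mathlib
import Pool.Agent.R701.GD.Core

/-!
# The gcd recursion for prime triples: the relation attached to a pair of near steps with large gcd

The relation takes into account all the steps with a medium gcd between the two steps.
-/

set_option autoImplicit false

namespace Pool.Agent.Helper45K9.GR

open Finset Pool.Agent.R701.GD

variable {K D s N f : ℕ} {A : ℕ → ℕ}

/-- the cofactor of the gcd -/
def mu (A : ℕ → ℕ) (n : ℕ) : ℕ := v n / g A n

/-- the slowly varying quantity -/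
noncomputable def U (A : ℕ → ℕ) (n : ℕ) : ℝ := (A n : ℝ) / (v n : ℝ) ^ 2

lemma g_mul_mu (n : ℕ) : g A n * mu A n = v n := Nat.mul_div_cancel' (g_dvd_v n)

lemma mu_pos (n : ℕ) (hn : 1 ≤ n) : 1 ≤ mu A n := by
  have h := g_mul_mu (A := A) n
  have h2 := le_v n
  rcases Nat.eq_zero_or_pos (mu A n) with h0 | h0
  · rw [h0, mul_zero] at h; omega
  · exact h0

lemma mu_dvd (n : ℕ) : mu A n ∣ v n := ⟨g A n, by rw [mul_comm]; exact (g_mul_mu n).symm⟩

lemma mu_le (h : Dat K D s N f A) {M n : ℕ} (hn : n ∈ G D s f A M) : mu A n ≤ 2 * K * M := by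
  rw [mem_G, mem_W] at hn
  have e1 := g_mul_mu (A := A) n
  have e2 := h.v_le_Ks hn.1.1.2
  have hs := h.s1
  have : s * mu A n ≤ s * (2 * K * M) := by
    calc s * mu A n ≤ (M * g A n) * mu A n := Nat.mul_le_mul_right _ hn.2
      _ = M * (g A n * mu A n) := by ring
      _ = M * v n := by rw [e1]
      _ ≤ M * (2 * (K * s)) := Nat.mul_le_mul_left _ e2
      _ = s * (2 * K * M) := by ring
  exact Nat.le_of_mul_le_mul_left this (by omega)

lemma v_same {n n' : ℕ} (h1 : n ≤ n') (h3 : n % 3 = n' % 3) : v n' = v n + (n' - n) := by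
  unfold v b
  split_ifs <;> omega

lemma v_shift {n₁ n₂ t : ℕ} (h1 : n₁ ≤ n₂) (h3 : n₁ % 3 = n₂ % 3) :
    v (n₂ + t) = v (n₁ + t) + (n₂ - n₁) := by
  unfold v b
  split_ifs <;> omega

lemma v_near {n k L : ℕ} (h1 : n ≤ k) (h2 : k ≤ n + L) : |(v k : ℤ) - v n| ≤ (L : ℤ) + 6 := by
  have a1 := v_le n
  have a2 := v_le k
  have a3 := le_v n
  have a4 := le_v k
  rw [abs_le]
  constructor <;> omega

/-- the steps with a large gcd have different second arguments -/
lemma distinct_v (h : Dat K D s N f A) {M' j k : ℕ} (hj : j ∈ G D s f A M')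
    (hk : k ∈ G D s f A M') (hjk : j < k) (hs : 10 * K * M' ^ 2 < s) : v j ≠ v k := by
  intro hv
  rw [mem_G, mem_W] at hj hk
  obtain ⟨⟨⟨hj2, hjf⟩, hjs⟩, hjg⟩ := hj
  obtain ⟨⟨⟨hk2, hkf⟩, hks⟩, hkg⟩ := hk
  have hb : k = j + 2 ∧ v (j + 1) = v j + 5 := by
    unfold v b at hv ⊢
    split_ifs at hv ⊢ <;> omega
  obtain ⟨rfl, hv5⟩ := hb
  set e := Nat.gcd (g A j) (g A (j + 2)) with he
  have e1 : e ∣ g A j := Nat.gcd_dvd_left _ _
  have e2 : e ∣ g A (j + 2) := Nat.gcd_dvd_right _ _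
  have e3 : e ∣ A j := e1.trans (g_dvd_A j)
  have e4 : e ∣ A (j + 2) := e2.trans (g_dvd_A _)
  have s1 := h.step j hj2 hjf
  have s2 := h.step (j + 1) (by omega) (by omega)
  have e5 : e ∣ A (j + 1) := by
    rw [← s1] at e3
    exact (Nat.dvd_add_left e1).mp e3
  have e6 : e ∣ g A (j + 1) := by
    rw [← s2] at e5
    exact (Nat.dvd_add_right e4).mp e5
  have e7 : e ∣ v (j + 1) := e6.trans (g_dvd_v _)
  have e8 : e ∣ v j := e1.trans (g_dvd_v _)
  have e9 : e ∣ 5 := by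
    rw [hv5] at e7
    exact (Nat.dvd_add_right e8).mp e7
  have e10 : e ≤ 5 := Nat.le_of_dvd (by norm_num) e9
  have l1 : Nat.lcm (g A j) (g A (j + 2)) ≤ v j := by
    apply Nat.le_of_dvd (by have := le_v j; omega)
    exact Nat.lcm_dvd (g_dvd_v j) (by rw [hv]; exact g_dvd_v _)
  have l2 : e * Nat.lcm (g A j) (g A (j + 2)) = g A j * g A (j + 2) := Nat.gcd_mul_lcm _ _
  have l3 := h.v_le_Ks hjf
  have hs1 := h.s1
  have : s * s ≤ (10 * K * M' ^ 2) * s := by
    calc s * s ≤ (M' * g A j) * (M' * g A (j + 2)) := Nat.mul_le_mul hjg hkg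
      _ = M' ^ 2 * (g A j * g A (j + 2)) := by ring
      _ = M' ^ 2 * (e * Nat.lcm (g A j) (g A (j + 2))) := by rw [l2]
      _ ≤ M' ^ 2 * (5 * (2 * (K * s))) := by gcongr; exact l1.trans l3
      _ = _ := by ring
  have := Nat.le_of_mul_le_mul_right this (by omega)
  omega

lemma gcd_mu_le (h : Dat K D s N f A) {M' L j k : ℕ} (hj : j ∈ G D s f A M')
    (hk : k ∈ G D s f A M') (hjk : j < k) (hL : k ≤ j + L) (hs : 10 * K * M' ^ 2 < s) :
    Nat.gcd (mu A j) (mu A k) ≤ L + 6 := by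
  have h1 := distinct_v h hj hk hjk hs
  have h2 := v_near (n := j) (k := k) (L := L) hjk.le hL
  set e := Nat.gcd (mu A j) (mu A k) with he
  have d1 : e ∣ v j := (Nat.gcd_dvd_left _ _).trans (mu_dvd j)
  have d2 : e ∣ v k := (Nat.gcd_dvd_right _ _).trans (mu_dvd k)
  have d3 : (e : ℤ) ∣ (v k : ℤ) - v j :=
    dvd_sub (Int.natCast_dvd_natCast.mpr d2) (Int.natCast_dvd_natCast.mpr d1)
  have d4 : (v k : ℤ) - v j ≠ 0 := by
    intro h0
    apply h1
    have : (v k : ℤ) = v j := by linarith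
    exact_mod_cast this.symm
  have d5 := Int.le_of_dvd (abs_pos.mpr d4) ((dvd_abs _ _).mpr d3)
  have : (e : ℤ) ≤ (L : ℤ) + 6 := d5.trans h2
  exact_mod_cast this

lemma aux_id (a η V x SR TR : ℝ) (hV : 0 < V)
    (k4 : x * (V * (V + η)) = a * η + (SR + TR) * V) :
    η * (a / V ^ 2) = x * (1 + η / V) - SR / V - TR / V := by
  have e : x * (1 + η / V) = x * (V * (V + η)) / V ^ 2 := by
    field_simp
  rw [e, k4]
  field_simp
  ring

lemma aux_xb (a η V x ST : ℝ) (K D L : ℝ) (hV : 0 < V) (hη : 0 ≤ η) (hx : 0 ≤ x)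
    (k4 : x * (V * (V + η)) = a * η + ST * V) (hηL : η ≤ L) (hK : 1 ≤ K) (hD : 2 ≤ D)
    (hL : 1 ≤ L) (hUb : a / V ^ 2 ≤ 8 * D ^ 2) (hST : ST / V ≤ 4 * K * D * L) :
    x ≤ 12 * K * D ^ 2 * L := by
  have e1 : x ≤ a / V ^ 2 * η + ST / V := by
    have e2 : x * V ^ 2 ≤ a * η + ST * V := by
      rw [← k4]
      have : 0 ≤ x * (V * η) := by positivity
      nlinarith
    have e3 : a / V ^ 2 * η + ST / V = (a * η + ST * V) / V ^ 2 := by
      field_simp
    rw [e3, le_div_iff₀ (by positivity)]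
    exact e2
  calc x ≤ a / V ^ 2 * η + ST / V := e1
    _ ≤ 8 * D ^ 2 * L + 4 * K * D * L := by gcongr
    _ ≤ 12 * K * D ^ 2 * L := by
        have f1 : 8 * D ^ 2 * L ≤ 8 * K * D ^ 2 * L := by
          have : 0 ≤ D ^ 2 * L := by positivity
          nlinarith
        have f2 : 4 * K * D * L ≤ 4 * K * D ^ 2 * L := by
          have : 0 ≤ K * D * L := by positivity
          nlinarith
        linarith

lemma aux_div (η V B D s : ℝ) (hV : 0 < V) (hs : 0 < s) (hB : 0 ≤ B) (hη : η ≤ B)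
    (hVs : s ≤ 2 * D * V) : η / V ≤ B * (2 * D / s) := by
  rw [div_le_iff₀ hV]
  have e : B * (2 * D / s) * V = B * (2 * D * V / s) := by ring
  rw [e]
  have : 1 ≤ 2 * D * V / s := by rw [le_div_iff₀ hs]; linarith
  nlinarith

lemma aux_fin (K D L s : ℝ) (hs : 0 < s) (hK : 1 ≤ K) (hD : 2 ≤ D) (hL : 1 ≤ L) :
    12 * K * D ^ 2 * L * (L * (2 * D / s)) + L * ((L + 6) * (2 * D / s))
      ≤ 40 * K * D ^ 3 * L ^ 2 / s := by
  have e1 : 12 * K * D ^ 2 * L * (L * (2 * D / s)) + L * ((L + 6) * (2 * D / s))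
      = (24 * K * D ^ 3 * L ^ 2 + 2 * D * L * (L + 6)) / s := by
    field_simp
    ring
  rw [e1]
  apply div_le_div_of_nonneg_right _ hs.le
  have e2 : 2 * D * L * (L + 6) ≤ 14 * D * L ^ 2 := by
    have : L + 6 ≤ 7 * L := by linarith
    have h0 : 0 ≤ 2 * D * L := by positivity
    nlinarith
  have e3 : 14 * D * L ^ 2 ≤ 14 * K * D ^ 3 * L ^ 2 := by
    have h0 : 0 ≤ D * L ^ 2 := by positivity
    have h1 : 1 ≤ K * D ^ 2 := by nlinarith
    nlinarith
  have h0 : 0 ≤ K * D ^ 3 * L ^ 2 := by positivity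
  nlinarith

lemma aux_tri (x y z a b c : ℝ) (h1 : |x| ≤ a) (h2 : |y| ≤ b) (h3 : |z| ≤ c) :
    |x - y - z| ≤ b + (a + c) := by
  rw [abs_le] at *
  constructor <;> linarith [h1.1, h1.2, h2.1, h2.2, h3.1, h3.2]

/-- the relation -/
lemma relation (h : Dat K D s N f A) (L M M' : ℕ) (hL : 1 ≤ L) (hM' : 1 ≤ M')
    (n n' : ℕ) (hn : n ∈ G D s f A M) (hn' : n' ∈ G D s f A M) (h1 : n < n') (h2 : n' ≤ n + L)
    (h3 : n % 3 = n' % 3) :
    ∃ m : ℕ, (m : ℝ) ≤ 12 * K * D ^ 2 * L * ((mu A n : ℝ) * mu A n') ∧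
      |((n' : ℝ) - n) * U A n - ((m : ℝ) / ((mu A n : ℝ) * mu A n')
        - ∑ k ∈ (G D s f A M').filter (fun k => n ≤ k ∧ k < n'), (1 : ℝ) / mu A k)|
        ≤ 2 * D * L / M' + 40 * K * D ^ 3 * L ^ 2 / s := by
  have hnW := (mem_G.mp hn).1
  have hnW' := (mem_G.mp hn').1
  rw [mem_G, mem_W] at hn hn'
  obtain ⟨⟨⟨hn2, hnf⟩, hns⟩, hng⟩ := hn
  obtain ⟨⟨⟨hn2', hnf'⟩, hns'⟩, hng'⟩ := hn'
  have hK := h.K1
  have hD := h.D2
  have hs := h.s1
  obtain ⟨α, hα⟩ := g_dvd_A (A := A) n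
  obtain ⟨α', hα'⟩ := g_dvd_A (A := A) n'
  have hg := h.g_pos (n := n) (by omega)
  have hg' := h.g_pos (n := n') (by omega)
  have hμ := g_mul_mu (A := A) n
  have hμ' := g_mul_mu (A := A) n'
  have hμp := mu_pos (A := A) n (by omega)
  have hμp' := mu_pos (A := A) n' (by omega)
  have htele := h.tele n n' hn2 h1.le (by omega)
  have hvv := v_same h1.le h3
  -- split the sum
  set T := (G D s f A M').filter (fun k => n ≤ k ∧ k < n') with hT
  have hTsub : T ⊆ Ico n n' := by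
    intro k hk
    rw [hT, mem_filter] at hk
    rw [mem_Ico]
    exact hk.2
  set S := ∑ k ∈ Ico n n' \ T, g A k with hS
  have hsplit : ∑ k ∈ Ico n n', g A k = S + ∑ k ∈ T, g A k := by
    rw [hS, Finset.sum_sdiff hTsub]
  have hSb : M' * S ≤ L * s := by
    rw [hS, mul_sum]
    calc ∑ k ∈ Ico n n' \ T, M' * g A k ≤ (Ico n n' \ T).card • s := by
          apply sum_le_card_nsmul
          intro k hk
          rw [mem_sdiff] at hk
          by_contra hcon
          apply hk.2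
          rw [hT, mem_filter]
          have hk1 := mem_Ico.mp hk.1
          refine ⟨?_, hk1⟩
          rw [mem_G]
          exact ⟨convex hnW hnW' hk1.1 hk1.2.le, by omega⟩
      _ ≤ L * s := by
          rw [smul_eq_mul]
          apply Nat.mul_le_mul_right
          refine (card_le_card sdiff_subset).trans ?_
          rw [Nat.card_Ico]
          omega
  -- real numbers
  have hsR : (0 : ℝ) < s := by exact_mod_cast (show 0 < s by omega)
  have hKR : (1 : ℝ) ≤ K := by exact_mod_cast hK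
  have hDR : (2 : ℝ) ≤ D := by exact_mod_cast hD
  have hLR : (1 : ℝ) ≤ L := by exact_mod_cast hL
  have hM'R : (1 : ℝ) ≤ M' := by exact_mod_cast hM'
  set V : ℝ := (v n : ℝ) with hV
  set V' : ℝ := (v n' : ℝ) with hV'
  set η : ℝ := (n' : ℝ) - n with hη
  have hVp : 0 < V := by
    have := le_v n
    rw [hV]
    exact_mod_cast (show 0 < v n by omega)
  have hVs : (s : ℝ) ≤ 2 * D * V := by
    rw [hV]
    exact_mod_cast hns.trans (Nat.mul_le_mul_left _ (le_v n))
  have hηp : 1 ≤ η := by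
    have : (n : ℝ) + 1 ≤ n' := by exact_mod_cast h1
    rw [hη]
    linarith
  have hηL : η ≤ L := by
    have : (n' : ℝ) ≤ n + L := by exact_mod_cast h2
    rw [hη]
    linarith
  have hVV : V' = V + η := by
    rw [hV', hvv, hη]
    rw [Nat.cast_add, Nat.cast_sub h1.le]
  have hV'p : 0 < V' := by rw [hVV]; linarith
  -- the integer m
  have hA1 : (A n : ℤ) = g A n * α := by exact_mod_cast hα
  have hA2 : (A n' : ℤ) = g A n' * α' := by exact_mod_cast hα'
  have hAle : A n' ≤ A n := h.anti hn2 h1.le (by omega)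
  have hvle : v n ≤ v n' := by omega
  set mi : ℤ := (mu A n' : ℤ) * α - mu A n * α' with hmi
  have key0 : (g A n : ℤ) * g A n' * mi = A n * v n' - A n' * v n := by
    have c1 : (v n : ℤ) = g A n * mu A n := by exact_mod_cast hμ.symm
    have c2 : (v n' : ℤ) = g A n' * mu A n' := by exact_mod_cast hμ'.symm
    rw [hmi, c1, c2, hA1, hA2]
    ring
  have hmi0 : 0 ≤ mi := by
    have p1 : (0 : ℤ) ≤ A n * v n' - A n' * v n := by
      have : A n' * v n ≤ A n * v n' := Nat.mul_le_mul hAle hvle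
      have : ((A n' * v n : ℕ) : ℤ) ≤ ((A n * v n' : ℕ) : ℤ) := by exact_mod_cast this
      push_cast at this
      linarith
    rw [← key0] at p1
    have p2 : (0 : ℤ) < (g A n : ℤ) * g A n' := by positivity
    exact nonneg_of_mul_nonneg_right p1 p2
  obtain ⟨m, hm⟩ := Int.eq_ofNat_of_zero_le hmi0
  -- real form of the key
  set a : ℝ := (A n : ℝ) with ha
  set a' : ℝ := (A n' : ℝ) with ha'
  set gn : ℝ := (g A n : ℝ) with hgn
  set gn' : ℝ := (g A n' : ℝ) with hgn'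
  set μ : ℝ := (mu A n : ℝ) with hμR
  set μ' : ℝ := (mu A n' : ℝ) with hμR'
  have hgnp : 0 < gn := by rw [hgn]; exact_mod_cast hg
  have hgnp' : 0 < gn' := by rw [hgn']; exact_mod_cast hg'
  have hμ1 : 1 ≤ μ := by rw [hμR]; exact_mod_cast hμp
  have hμ1' : 1 ≤ μ' := by rw [hμR']; exact_mod_cast hμp'
  have k0 : gn * gn' * (m : ℝ) = a * V' - a' * V := by
    have := key0
    rw [hm] at this
    have h' : ((g A n : ℤ) : ℝ) * ((g A n' : ℤ) : ℝ) * (((m : ℕ) : ℤ) : ℝ)
        = ((A n : ℤ) : ℝ) * ((v n' : ℤ) : ℝ) - ((A n' : ℤ) : ℝ) * ((v n : ℤ) : ℝ) := by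
      exact_mod_cast this
    simpa using h'
  have k1 : V = gn * μ := by rw [hV, hgn, hμR]; exact_mod_cast hμ.symm
  have k2 : V' = gn' * μ' := by rw [hV', hgn', hμR']; exact_mod_cast hμ'.symm
  obtain ⟨SR, hSR⟩ : ∃ x : ℝ, x = (S : ℝ) := ⟨_, rfl⟩
  obtain ⟨TR, hTR⟩ : ∃ x : ℝ, x = ∑ k ∈ T, (g A k : ℝ) := ⟨_, rfl⟩
  have k3 : a = a' + (SR + TR) := by
    have : A n' + (S + ∑ k ∈ T, g A k) = A n := by rw [← hsplit]; exact htele
    have h' : ((A n' + (S + ∑ k ∈ T, g A k) : ℕ) : ℝ) = (A n : ℝ) := by exact_mod_cast this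
    push_cast at h'
    rw [ha, ha', hSR, hTR]
    exact h'.symm
  obtain ⟨x, hx⟩ : ∃ x : ℝ, x = (m : ℝ) / (μ * μ') := ⟨_, rfl⟩
  have k4 : x * (V * V') = a * η + (SR + TR) * V := by
    rw [hx, k1, k2]
    have : (m : ℝ) / (μ * μ') * (gn * μ * (gn' * μ')) = gn * gn' * m := by
      field_simp
    rw [this, k0, hVV, k1]
    rw [k3]
    ring
  -- bounds
  have hSR0 : 0 ≤ SR := by rw [hSR]; exact Nat.cast_nonneg _
  have hTR0 : 0 ≤ TR := by rw [hTR]; exact Finset.sum_nonneg (fun _ _ => Nat.cast_nonneg _)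
  have hSRb : SR / V ≤ 2 * D * L / M' := by
    have e1 : (M' : ℝ) * SR ≤ L * s := by rw [hSR]; exact_mod_cast hSb
    rw [div_le_div_iff₀ hVp (by linarith)]
    calc SR * M' = M' * SR := by ring
      _ ≤ L * s := e1
      _ ≤ L * (2 * D * V) := by gcongr
      _ = _ := by ring
  have hSTb : (SR + TR) / V ≤ 4 * K * D * L := by
    have e1 : SR + TR ≤ L * (2 * (K * s)) := by
      have e2 : ∑ k ∈ Ico n n', g A k ≤ (Ico n n').card • (2 * (K * s)) := by
        apply sum_le_card_nsmul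
        intro k hk
        rw [mem_Ico] at hk
        exact (g_le_v k (by omega)).trans (h.v_le_Ks (by omega))
      rw [Nat.card_Ico, smul_eq_mul] at e2
      have e3 : S + ∑ k ∈ T, g A k ≤ L * (2 * (K * s)) := by
        rw [← hsplit]
        exact e2.trans (Nat.mul_le_mul_right _ (by omega))
      rw [hSR, hTR]
      exact_mod_cast e3
    rw [div_le_iff₀ hVp]
    calc SR + TR ≤ L * (2 * (K * s)) := e1
      _ ≤ L * (2 * (K * (2 * D * V))) := by gcongr
      _ = _ := by ring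
  have haN : a ≤ 2 * (s * s : ℝ) := by
    have e1 : A n ≤ N := h.le_N hn2 (by omega)
    have e2 := e1.trans h.N2
    rw [ha]
    exact_mod_cast e2
  have ha0 : 0 ≤ a := by rw [ha]; exact Nat.cast_nonneg _
  have hUb : a / V ^ 2 ≤ 8 * D ^ 2 := by
    rw [div_le_iff₀ (by positivity)]
    calc a ≤ 2 * (s * s : ℝ) := haN
      _ ≤ 2 * ((2 * D * V) * (2 * D * V)) := by gcongr
      _ = _ := by ring
  have hx0 : 0 ≤ x := by rw [hx]; positivity
  have k5 : x * (V * (V + η)) = a * η + (SR + TR) * V := by rw [← hVV]; exact k4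
  have hxb : x ≤ 12 * K * D ^ 2 * L :=
    aux_xb a η V x (SR + TR) K D L hVp (by linarith) hx0 k5 hηL hKR hDR hLR hUb hSTb
  refine ⟨m, ?_, ?_⟩
  · have : (m : ℝ) = x * (μ * μ') := by
      rw [hx]
      field_simp
    rw [this]
    gcongr
  -- the identity
  have hTk : ∀ k ∈ T, (g A k : ℝ) / V = 1 / (mu A k : ℝ) + (1 / (mu A k : ℝ)) * (((v k : ℝ) - V) / V) := by
    intro k hk
    have hk' := mem_Ico.mp (hTsub hk)
    have e1 := g_mul_mu (A := A) k
    have e2 : (g A k : ℝ) * mu A k = v k := by exact_mod_cast e1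
    have e3 : (1 : ℝ) ≤ mu A k := by exact_mod_cast mu_pos (A := A) k (by omega)
    rw [← e2]
    field_simp
    ring
  have hTsum : TR / V = ∑ k ∈ T, (1 : ℝ) / mu A k
      + ∑ k ∈ T, (1 / (mu A k : ℝ)) * (((v k : ℝ) - V) / V) := by
    rw [hTR, Finset.sum_div, ← Finset.sum_add_distrib]
    exact Finset.sum_congr rfl hTk
  have hid : η * (a / V ^ 2) = x * (1 + η / V) - SR / V - TR / V :=
    aux_id a η V x SR TR hVp k5
  have hid2 : η * U A n - (x - ∑ k ∈ T, (1 : ℝ) / mu A k)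
      = x * (η / V) - SR / V - ∑ k ∈ T, (1 / (mu A k : ℝ)) * (((v k : ℝ) - V) / V) := by
    have : U A n = a / V ^ 2 := rfl
    rw [this, hid, hTsum]
    ring
  rw [← hx, hid2]
  have b1 : |x * (η / V)| ≤ 12 * K * D ^ 2 * L * (L * (2 * D / s)) := by
    rw [abs_of_nonneg (by positivity)]
    have : η / V ≤ L * (2 * D / s) :=
      aux_div η V L D s hVp hsR (by linarith) hηL hVs
    exact mul_le_mul hxb this (by positivity) (by positivity)
  have b2 : |SR / V| ≤ 2 * D * L / M' := by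
    rw [abs_of_nonneg (by positivity)]
    exact hSRb
  have b3 : |∑ k ∈ T, (1 / (mu A k : ℝ)) * (((v k : ℝ) - V) / V)| ≤ L * ((L + 6) * (2 * D / s)) := by
    refine (Finset.abs_sum_le_sum_abs _ _).trans ?_
    have c1 : ∀ k ∈ T, |(1 / (mu A k : ℝ)) * (((v k : ℝ) - V) / V)| ≤ (L + 6) * (2 * D / s) := by
      intro k hk
      have hk' := mem_Ico.mp (hTsub hk)
      have e3 : (1 : ℝ) ≤ mu A k := by exact_mod_cast mu_pos (A := A) k (by omega)
      have e4 := v_near (n := n) (k := k) (L := L) hk'.1 (by omega)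
      have e5 : |(v k : ℝ) - V| ≤ L + 6 := by
        have : ((|(v k : ℤ) - v n| : ℤ) : ℝ) ≤ (((L : ℤ) + 6 : ℤ) : ℝ) := by exact_mod_cast e4
        push_cast at this
        exact this
      rw [abs_mul, abs_div _ V, abs_of_pos hVp, abs_of_nonneg (by positivity)]
      have e6 : 1 / (mu A k : ℝ) ≤ 1 := by
        rw [div_le_one (by linarith)]
        exact e3
      have e7 : |(v k : ℝ) - V| / V ≤ (L + 6) * (2 * D / s) :=
        aux_div _ V (L + 6) D s hVp hsR (by linarith) e5 hVs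
      calc 1 / (mu A k : ℝ) * (|(v k : ℝ) - V| / V) ≤ 1 * ((L + 6) * (2 * D / s)) :=
            mul_le_mul e6 e7 (by positivity) (by norm_num)
        _ = _ := by ring
    have c2 := Finset.sum_le_card_nsmul T _ _ c1
    refine c2.trans ?_
    rw [nsmul_eq_mul]
    have c3 : (T.card : ℝ) ≤ L := by
      have : T.card ≤ L := by
        refine (card_le_card hTsub).trans ?_
        rw [Nat.card_Ico]
        omega
      exact_mod_cast this
    gcongr
  refine (aux_tri _ _ _ _ _ _ b1 b2 b3).trans ?_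
  have b5 := aux_fin K D L s hsR hKR hDR hLR
  linarith

end Pool.Agent.Helper45K9.GR
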