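import Mathlib
import Pool.Agent.Helper45K9.GR.Comb
import Pool.Agent.Helper45K9.GR.Rel2

/-!
# The gcd recursion for prime triples: counting the pairs with few medium steps in between
-/

set_option autoImplicit false

namespace Pool.Agent.Helper45K9.GR

open Finset Pool.Agent.R701.GD

variable {K D s N f : ℕ} {A : ℕ → ℕ}

/-- two steps with the same data are near -/
lemma near2 (h : Dat K D s N f A) (n₁ n₂ : ℕ) (w1 : n₁ ∈ W D s f) (w2 : n₂ ∈ W D s f)
    (hlt : n₁ < n₂) (h3 : n₁ % 3 = n₂ % 3) (η x δ : ℝ) (hη : 1 ≤ η)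
    (r1 : |η * U A n₁ - x| ≤ δ) (r2 : |η * U A n₂ - x| ≤ δ) :
    (n₂ : ℝ) - n₁ ≤ 128 * K ^ 3 * s * δ := by
  rw [mem_W] at w1 w2
  have hvv := v_same hlt.le h3
  have a1 := h.v_le_Ks w1.1.2
  have a2 := h.v_le_Ks w2.1.2
  have hs := h.s1
  have hK := h.K1
  have hsR : (0 : ℝ) < s := by exact_mod_cast (show 0 < s by omega)
  have hKR : (1 : ℝ) ≤ K := by exact_mod_cast hK
  have V1p : (0 : ℝ) < v n₁ := by
    have := le_v n₁
    exact_mod_cast (show 0 < v n₁ by omega)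
  have V12 : (v n₂ : ℝ) = v n₁ + ((n₂ : ℝ) - n₁) := by
    rw [hvv, Nat.cast_add, Nat.cast_sub hlt.le]
  have hlt' : (n₁ : ℝ) < n₂ := by exact_mod_cast hlt
  have V1u : (v n₁ : ℝ) ≤ 2 * (K * s) := by exact_mod_cast a1
  have V2u : (v n₂ : ℝ) ≤ 2 * (K * s) := by exact_mod_cast a2
  have hA : (A n₂ : ℝ) ≤ A n₁ := by
    exact_mod_cast h.anti w1.1.1 hlt.le (by omega)
  have hA1 : (s : ℝ) ^ 2 / 8 ≤ A n₁ := by
    have : s * s ≤ 2 * A n₁ := h.N1.trans (h.half n₁ w1.1.1 w1.1.2)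
    have : (s : ℝ) * s ≤ 2 * A n₁ := by exact_mod_cast this
    nlinarith
  have D' := lowerD s K (v n₁) (v n₂) (A n₁) (A n₂) hsR hKR V1p (by linarith) V1u V2u hA hA1
  have D2 : ((v n₂ : ℝ) - v n₁) / (64 * K ^ 3 * s) ≤ U A n₁ - U A n₂ := D'
  have h4 : U A n₁ - U A n₂ ≤ 2 * δ := by
    rw [abs_le] at r1 r2
    have h5 : η * (U A n₁ - U A n₂) ≤ 2 * δ := by linarith [r1.1, r1.2, r2.1, r2.2]
    have h6 : 0 ≤ U A n₁ - U A n₂ := by
      refine le_trans ?_ D2
      apply div_nonneg _ (by positivity)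
      linarith
    nlinarith
  have h7 := D2.trans h4
  rw [div_le_iff₀ (by positivity)] at h7
  have h8 : (v n₂ : ℝ) - v n₁ = (n₂ : ℝ) - n₁ := by linarith
  rw [h8] at h7
  linarith

/-- the steps followed by a step with a large gcd, in the same residue class modulo 3, with few
medium steps in between -/
noncomputable def Bad (D s f : ℕ) (A : ℕ → ℕ) (c L M M' R : ℕ) : Finset ℕ :=
  open Classical in
  (G D s f A M).filter (fun n => n % 3 = c ∧ ∃ n' ∈ G D s f A M, n' % 3 = c ∧ n < n' ∧ n' ≤ n + L ∧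
    ((G D s f A M').filter (fun k => n < k ∧ k < n')).card < R)

lemma mem_Bad {c L M M' R n : ℕ} : n ∈ Bad D s f A c L M M' R ↔ n ∈ G D s f A M ∧ n % 3 = c ∧
    ∃ n' ∈ G D s f A M, n' % 3 = c ∧ n < n' ∧ n' ≤ n + L ∧
    ((G D s f A M').filter (fun k => n < k ∧ k < n')).card < R := by
  classical
  simp [Bad]

/-- the medium steps between `n` and `n'`, with their positions and cofactors -/
def pat (D s f : ℕ) (A : ℕ → ℕ) (M' n n' : ℕ) : Finset (ℕ × ℕ) :=
  ((G D s f A M').filter (fun k => n ≤ k ∧ k ≤ n')).image (fun k => (k - n, mu A k))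

lemma mem_pat {M' n n' : ℕ} {p : ℕ × ℕ} : p ∈ pat D s f A M' n n' ↔
    n + p.1 ∈ G D s f A M' ∧ n + p.1 ≤ n' ∧ p.2 = mu A (n + p.1) := by
  unfold pat
  rw [mem_image]
  constructor
  · rintro ⟨k, hk, rfl⟩
    rw [mem_filter] at hk
    simp only
    rw [Nat.add_sub_cancel' hk.2.1]
    exact ⟨hk.1, hk.2.2, rfl⟩
  · rintro ⟨h1, h2, h3⟩
    refine ⟨n + p.1, ?_, ?_⟩
    · rw [mem_filter]
      exact ⟨h1, by omega, h2⟩
    · rw [Nat.add_sub_cancel_left, ← h3]

/-- equal patterns of two pairs -/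
lemma pat_eq {M' n₁ n₁' n₂ n₂' : ℕ} (hn₁ : n₁ ∈ G D s f A M') (hn₁' : n₁' ∈ G D s f A M')
    (hn₂ : n₂ ∈ G D s f A M') (hn₂' : n₂' ∈ G D s f A M') (h1 : n₁ < n₁') (h2 : n₂ < n₂')
    (hp : pat D s f A M' n₁ n₁' = pat D s f A M' n₂ n₂') :
    n₁' - n₁ = n₂' - n₂ ∧ mu A n₁ = mu A n₂ ∧ mu A n₁' = mu A n₂' ∧
      ∑ k ∈ (G D s f A M').filter (fun k => n₁ ≤ k ∧ k < n₁'), (1 : ℝ) / mu A k
        = ∑ k ∈ (G D s f A M').filter (fun k => n₂ ≤ k ∧ k < n₂'), (1 : ℝ) / mu A k := by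
  have key : ∀ n n' m m' : ℕ, n' ∈ G D s f A M' → n < n' → m < m' →
      pat D s f A M' n n' = pat D s f A M' m m' → n' - n ≤ m' - m := by
    intro n n' m m' hn' hnn hmm hpp
    have : (n' - n, mu A n') ∈ pat D s f A M' n n' := by
      rw [mem_pat]
      simp only
      rw [Nat.add_sub_cancel' hnn.le]
      exact ⟨hn', le_rfl, rfl⟩
    rw [hpp, mem_pat] at this
    simp only at this
    omega
  have e1 : n₁' - n₁ = n₂' - n₂ :=
    le_antisymm (key _ _ _ _ hn₁' h1 h2 hp) (key _ _ _ _ hn₂' h2 h1 hp.symm)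
  have e2 : mu A n₁ = mu A n₂ := by
    have : (0, mu A n₁) ∈ pat D s f A M' n₁ n₁' := by
      rw [mem_pat]
      exact ⟨hn₁, by simpa using h1.le, rfl⟩
    rw [hp, mem_pat] at this
    simpa using this.2.2
  have e3 : mu A n₁' = mu A n₂' := by
    have : (n₁' - n₁, mu A n₁') ∈ pat D s f A M' n₁ n₁' := by
      rw [mem_pat]
      simp only
      rw [Nat.add_sub_cancel' h1.le]
      exact ⟨hn₁', le_rfl, rfl⟩
    rw [hp, mem_pat] at this
    have h4 := this.2.2
    simp only at h4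
    rw [e1, Nat.add_sub_cancel' h2.le] at h4
    exact h4
  refine ⟨e1, e2, e3, ?_⟩
  have sumpat : ∀ n n' : ℕ, n < n' →
      ∑ k ∈ (G D s f A M').filter (fun k => n ≤ k ∧ k < n'), (1 : ℝ) / mu A k
        = ∑ p ∈ (pat D s f A M' n n').filter (fun p => p.1 < n' - n), (1 : ℝ) / p.2 := by
    intro n n' hnn
    apply Finset.sum_bij (fun k _ => (k - n, mu A k))
    · intro k hk
      rw [mem_filter] at hk
      rw [mem_filter, mem_pat]
      simp only
      rw [Nat.add_sub_cancel' hk.2.1]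
      exact ⟨⟨hk.1, hk.2.2.le, rfl⟩, by omega⟩
    · intro k₁ hk₁ k₂ hk₂ heq
      rw [mem_filter] at hk₁ hk₂
      simp only [Prod.mk.injEq] at heq
      omega
    · intro p hp
      rw [mem_filter, mem_pat] at hp
      refine ⟨n + p.1, ?_, ?_⟩
      · rw [mem_filter]
        exact ⟨hp.1.1, by omega, by omega⟩
      · rw [Nat.add_sub_cancel_left, ← hp.1.2.2]
    · intro k hk
      rfl
  rw [sumpat n₁ n₁' h1, sumpat n₂ n₂' h2, hp, e1]

/-- the product of the cofactors in a pattern -/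
lemma pat_prod (h : Dat K D s N f A) {M' n n' L R : ℕ} (hM' : 10 * K * M' ^ 2 < s)
    (hL : n' ≤ n + L) (hR : ((G D s f A M').filter (fun k => n < k ∧ k < n')).card < R) :
    (pat D s f A M' n n').card ≤ R + 1 ∧
    ∏ p ∈ pat D s f A M' n n', p.2
      ≤ (pat D s f A M' n n').lcm Prod.snd * (L + 6) ^ ((R + 1) ^ 2) := by
  have hc : (pat D s f A M' n n').card ≤ R + 1 := by
    refine card_image_le.trans ?_
    have : (G D s f A M').filter (fun k => n ≤ k ∧ k ≤ n')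
        ⊆ insert n (insert n' ((G D s f A M').filter (fun k => n < k ∧ k < n'))) := by
      intro k hk
      rw [mem_filter] at hk
      rw [mem_insert, mem_insert, mem_filter]
      by_cases h1 : k = n
      · exact Or.inl h1
      by_cases h2 : k = n'
      · exact Or.inr (Or.inl h2)
      exact Or.inr (Or.inr ⟨hk.1, by omega, by omega⟩)
    refine (card_le_card this).trans ?_
    refine (card_insert_le _ _).trans ?_
    have := card_insert_le n' ((G D s f A M').filter (fun k => n < k ∧ k < n'))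
    omega
  refine ⟨hc, ?_⟩
  have h1 := prod_le_lcm (pat D s f A M' n n') Prod.snd (L + 6) (by omega)
    (by
      intro p hp
      rw [mem_pat] at hp
      rw [hp.2.2]
      apply mu_pos
      have := (mem_W.mp (mem_G.mp hp.1).1).1.1
      omega)
    (by
      intro p hp q hq hpq
      rw [mem_pat] at hp hq
      have hne : p.1 ≠ q.1 := by
        intro h0
        apply hpq
        apply Prod.ext h0
        rw [hp.2.2, hq.2.2, h0]
      rw [hp.2.2, hq.2.2]
      rcases Nat.lt_or_gt_of_ne hne with hlt | hlt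
      · exact gcd_mu_le h hp.1 hq.1 (by omega) (by omega) hM'
      · rw [Nat.gcd_comm]
        exact gcd_mu_le h hq.1 hp.1 (by omega) (by omega) hM')
  refine h1.trans ?_
  apply Nat.mul_le_mul_left
  apply Nat.pow_le_pow_right (by omega)
  exact Nat.pow_le_pow_left hc 2

lemma pat_dvd {M' n₁ n₁' n₂ n₂' : ℕ} (h12 : n₁ ≤ n₂) (h3 : n₁ % 3 = n₂ % 3)
    (hp : pat D s f A M' n₁ n₁' = pat D s f A M' n₂ n₂') :
    (pat D s f A M' n₁ n₁').lcm Prod.snd ∣ n₂ - n₁ := by
  apply Finset.lcm_dvd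
  intro p hp1
  have hp2 := hp1
  rw [hp] at hp2
  rw [mem_pat] at hp1 hp2
  have d1 : p.2 ∣ v (n₁ + p.1) := by rw [hp1.2.2]; exact mu_dvd _
  have d2 : p.2 ∣ v (n₂ + p.1) := by rw [hp2.2.2]; exact mu_dvd _
  rw [v_shift (t := p.1) h12 h3] at d2
  exact (Nat.dvd_add_right d1).mp d2

/-- the number of the steps with few medium steps before the next large step -/
theorem Bad_card (h : Dat K D s N f A) (c L M M' R : ℕ) (hL : 1 ≤ L) (hM : 1 ≤ M) (hMM : M ≤ M')
    (hM' : 10 * K * M' ^ 2 < s) (σ : ℝ)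
    (hσ : ((L : ℝ) + 1) * (1 + Real.log ((2 * K * M' : ℕ) : ℝ)) ≤ σ) :
    ((Bad D s f A c L M M' R).card : ℝ) ≤ (48 * K ^ 3 * D ^ 2 * L * M ^ 2 + 1) *
      ((256 * K ^ 3 * D * L * s / M' + 5120 * K ^ 4 * D ^ 3 * L ^ 2)
        * (L + 6) ^ ((R + 1) ^ 2) * (3 * σ ^ (R + 1))
        + 3 * (((L : ℝ) + 1) * (2 * K * M')) ^ (R + 1)) := by
  classical
  have hK := h.K1
  have hD := h.D2
  have hs := h.s1
  have hM'1 : 1 ≤ M' := hM.trans hMM
  have hsR : (0 : ℝ) < s := by exact_mod_cast (show 0 < s by omega)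
  have hKR : (1 : ℝ) ≤ K := by exact_mod_cast hK
  have hDR : (2 : ℝ) ≤ D := by exact_mod_cast hD
  have hLR : (1 : ℝ) ≤ L := by exact_mod_cast hL
  have hM'R : (1 : ℝ) ≤ M' := by exact_mod_cast hM'1
  set δ : ℝ := 2 * D * L / M' + 40 * K * D ^ 3 * L ^ 2 / s with hδ
  have hex : ∀ n ∈ Bad D s f A c L M M' R, ∃ (n' m : ℕ), n' ∈ G D s f A M ∧ n' % 3 = c ∧ n < n' ∧
      n' ≤ n + L ∧ ((G D s f A M').filter (fun k => n < k ∧ k < n')).card < R ∧
      (m : ℝ) ≤ 12 * K * D ^ 2 * L * ((mu A n : ℝ) * mu A n') ∧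
      |((n' : ℝ) - n) * U A n - ((m : ℝ) / ((mu A n : ℝ) * mu A n')
        - ∑ k ∈ (G D s f A M').filter (fun k => n ≤ k ∧ k < n'), (1 : ℝ) / mu A k)| ≤ δ := by
    intro n hn
    rw [mem_Bad] at hn
    obtain ⟨h1, h2, n', h3, h4, h5, h6, h7⟩ := hn
    obtain ⟨m, hm1, hm2⟩ := relation h L M M' hL hM'1 n n' h1 h3 h5 h6 (h2.trans h4.symm)
    exact ⟨n', m, h3, h4, h5, h6, h7, hm1, hm2⟩
  choose! nx m hnx1 hnx2 hnx3 hnx4 hnx5 hm1 hm2 using hex
  set Ω : Finset (ℕ × ℕ) := range (L + 1) ×ˢ Icc 1 (2 * K * M') with hΩ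
  set box : Finset (ℕ × Finset (ℕ × ℕ)) :=
    range (48 * K ^ 3 * D ^ 2 * L * M ^ 2 + 1) ×ˢ (Ω.powerset.filter (fun P => P.card ≤ R + 1))
    with hbox
  have hBG : ∀ n ∈ Bad D s f A c L M M' R, n ∈ G D s f A M := fun n hn => (mem_Bad.mp hn).1
  have hBc : ∀ n ∈ Bad D s f A c L M M' R, n % 3 = c := fun n hn => (mem_Bad.mp hn).2.1
  have hGG : G D s f A M ⊆ G D s f A M' := G_mono hMM
  -- the map into the box
  have hmaps : ∀ n ∈ Bad D s f A c L M M' R, (m n, pat D s f A M' n (nx n)) ∈ box := by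
    intro n hn
    rw [hbox, mem_product, mem_range, mem_filter, mem_powerset]
    refine ⟨?_, ?_, (pat_prod h hM' (hnx4 n hn) (hnx5 n hn)).1⟩
    · have e1 := hm1 n hn
      have e2 := mu_le h (hBG n hn)
      have e3 := mu_le h (hnx1 n hn)
      have e2' : (mu A n : ℝ) ≤ 2 * K * M := by exact_mod_cast e2
      have e3' : (mu A (nx n) : ℝ) ≤ 2 * K * M := by exact_mod_cast e3
      have e4 : (m n : ℝ) ≤ 48 * K ^ 3 * D ^ 2 * L * M ^ 2 := by
        calc (m n : ℝ) ≤ 12 * K * D ^ 2 * L * ((mu A n : ℝ) * mu A (nx n)) := e1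
          _ ≤ 12 * K * D ^ 2 * L * ((2 * K * M) * (2 * K * M)) := by gcongr
          _ = _ := by ring
      have e5 : m n ≤ 48 * K ^ 3 * D ^ 2 * L * M ^ 2 := by exact_mod_cast e4
      omega
    · intro p hp
      rw [mem_pat] at hp
      rw [hΩ, mem_product, mem_range, mem_Icc]
      have h4 := hnx4 n hn
      refine ⟨by omega, ?_, ?_⟩
      · rw [hp.2.2]
        apply mu_pos
        have := (mem_W.mp (mem_G.mp hp.1).1).1.1
        omega
      · rw [hp.2.2]
        exact mu_le h hp.1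
  -- the fibres
  set Λ : ℝ := 256 * K ^ 3 * D * L * s / M' + 5120 * K ^ 4 * D ^ 3 * L ^ 2 with hΛ
  have hΛ0 : 0 ≤ Λ := by rw [hΛ]; positivity
  have hfib : ∀ τ ∈ box, (((Bad D s f A c L M M' R).filter
      (fun n => (m n, pat D s f A M' n (nx n)) = τ)).card : ℝ)
      ≤ Λ * (L + 6) ^ ((R + 1) ^ 2) * ∏ p ∈ τ.2, (1 / (p.2 : ℝ)) + 1 := by
    intro τ _
    set F := (Bad D s f A c L M M' R).filter (fun n => (m n, pat D s f A M' n (nx n)) = τ) with hF
    have hprod0 : 0 ≤ ∏ p ∈ τ.2, (1 / (p.2 : ℝ)) :=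
      Finset.prod_nonneg (fun p _ => by positivity)
    rcases F.eq_empty_or_nonempty with he | hne
    · rw [he]
      simp only [card_empty, Nat.cast_zero]
      positivity
    · set n₀ := F.min' hne with hn₀
      have hmem : n₀ ∈ F := F.min'_mem hne
      have hmem' := hmem
      rw [hF, mem_filter] at hmem'
      obtain ⟨hB0, e0⟩ := hmem'
      have hτ2 : τ.2 = pat D s f A M' n₀ (nx n₀) := by rw [← e0]
      have hpp := (pat_prod h hM' (hnx4 n₀ hB0) (hnx5 n₀ hB0)).2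
      rw [← hτ2] at hpp
      set Q := τ.2.lcm Prod.snd with hQ
      have hprodpos : ∀ p ∈ τ.2, 1 ≤ p.2 := by
        intro p hp
        rw [hτ2, mem_pat] at hp
        rw [hp.2.2]
        apply mu_pos
        have := (mem_W.mp (mem_G.mp hp.1).1).1.1
        omega
      have hQ1 : 1 ≤ Q := by
        rcases Nat.eq_zero_or_pos Q with h0 | h0
        · rw [hQ] at h0
          rw [Finset.lcm_eq_zero_iff] at h0
          obtain ⟨p, hp1, hp2⟩ := h0
          have := hprodpos p hp1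
          omega
        · exact h0
      have hall : ∀ n ∈ F, n₀ ≤ n ∧ n ≤ n₀ + ⌊Λ⌋₊ ∧ Q ∣ n - n₀ := by
        intro n hn
        have hle : n₀ ≤ n := F.min'_le n hn
        rw [hF, mem_filter] at hn
        obtain ⟨hB1, e1⟩ := hn
        rcases hle.eq_or_lt with heq | hlt
        · subst heq
          simp
        have e01 : (m n₀, pat D s f A M' n₀ (nx n₀)) = (m n, pat D s f A M' n (nx n)) :=
          e0.trans e1.symm
        simp only [Prod.mk.injEq] at e01
        obtain ⟨q1, q2⟩ := e01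
        have hc3 : n₀ % 3 = n % 3 := (hBc n₀ hB0).trans (hBc n hB1).symm
        obtain ⟨u1, u2, u3, u4⟩ := pat_eq (hGG (hBG n₀ hB0)) (hGG (hnx1 n₀ hB0)) (hGG (hBG n hB1))
          (hGG (hnx1 n hB1)) (hnx3 n₀ hB0) (hnx3 n hB1) q2
        refine ⟨hle, ?_, ?_⟩
        · have w0 : n₀ ∈ W D s f := (mem_G.mp (hBG n₀ hB0)).1
          have w1 : n ∈ W D s f := (mem_G.mp (hBG n hB1)).1
          have r0 := hm2 n₀ hB0
          have r1 := hm2 n hB1
          have v1 := hnx3 n₀ hB0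
          have v2 := hnx3 n hB1
          have u1' : (nx n₀ : ℝ) - n₀ = (nx n : ℝ) - n := by
            rw [← Nat.cast_sub v1.le, ← Nat.cast_sub v2.le, u1]
          rw [u1', q1, u2, u3, u4] at r0
          have hη1 : (1 : ℝ) ≤ (nx n : ℝ) - n := by
            have : (n : ℝ) + 1 ≤ nx n := by exact_mod_cast v2
            linarith
          have hnear := near2 h n₀ n w0 w1 hlt hc3 _ _ δ hη1 r0 r1
          have hbd : (n : ℝ) - n₀ ≤ Λ := by
            refine hnear.trans ?_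
            have : 128 * (K : ℝ) ^ 3 * s * δ = Λ := by
              rw [hδ, hΛ]
              field_simp
              ring
            rw [this]
          have h5 : ((n - n₀ : ℕ) : ℝ) ≤ Λ := by
            rw [Nat.cast_sub hle]
            exact hbd
          have h6 := Nat.le_floor h5
          omega
        · rw [hQ, hτ2]
          exact pat_dvd hle hc3 q2
      have hcp := card_prog F n₀ ⌊Λ⌋₊ Q hQ1 hall
      have hcp' : (F.card : ℝ) ≤ (⌊Λ⌋₊ / Q : ℕ) + 1 := by exact_mod_cast hcp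
      have h1 : ((⌊Λ⌋₊ / Q : ℕ) : ℝ) ≤ Λ / Q := by
        refine Nat.cast_div_le.trans ?_
        apply div_le_div_of_nonneg_right (Nat.floor_le hΛ0)
        positivity
      have h2 : Λ / Q ≤ Λ * (L + 6) ^ ((R + 1) ^ 2) * ∏ p ∈ τ.2, (1 / (p.2 : ℝ)) := by
        have e1 : ∏ p ∈ τ.2, (1 / (p.2 : ℝ)) = 1 / ((∏ p ∈ τ.2, p.2 : ℕ) : ℝ) := by
          push_cast
          rw [Finset.prod_div_distrib, Finset.prod_const_one]
        rw [e1]
        have e2 : (0 : ℝ) < ((∏ p ∈ τ.2, p.2 : ℕ) : ℝ) := by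
          have : 0 < ∏ p ∈ τ.2, p.2 := Finset.prod_pos (fun p hp => hprodpos p hp)
          exact_mod_cast this
        have e3 : ((∏ p ∈ τ.2, p.2 : ℕ) : ℝ) ≤ (Q : ℝ) * (L + 6) ^ ((R + 1) ^ 2) := by
          exact_mod_cast hpp
        have hQR : (0 : ℝ) < Q := by exact_mod_cast hQ1
        rw [mul_one_div, div_le_div_iff₀ hQR e2]
        calc Λ * ((∏ p ∈ τ.2, p.2 : ℕ) : ℝ) ≤ Λ * ((Q : ℝ) * (L + 6) ^ ((R + 1) ^ 2)) := by
              gcongr
          _ = _ := by ring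
      linarith
  -- summation
  have hcard := Finset.card_eq_sum_card_fiberwise hmaps
  have hcardR : ((Bad D s f A c L M M' R).card : ℝ)
      = ∑ τ ∈ box, (((Bad D s f A c L M M' R).filter
      (fun n => (m n, pat D s f A M' n (nx n)) = τ)).card : ℝ) := by
    exact_mod_cast hcard
  rw [hcardR]
  refine (Finset.sum_le_sum hfib).trans ?_
  rw [hbox, Finset.sum_product]
  simp only
  rw [Finset.sum_const, card_range, nsmul_eq_mul]
  push_cast
  apply mul_le_mul_of_nonneg_left _ (by positivity)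
  rw [Finset.sum_add_distrib, ← Finset.mul_sum]
  have hLog : 0 ≤ Real.log ((2 * K * M' : ℕ) : ℝ) := Real.log_natCast_nonneg _
  have hσ1 : 1 ≤ σ := by
    refine le_trans ?_ hσ
    nlinarith
  have hΩs : ∑ p ∈ Ω, (1 : ℝ) / (p.2 : ℝ) ≤ σ := by
    refine le_trans ?_ hσ
    rw [hΩ, Finset.sum_product]
    simp only
    rw [Finset.sum_const, card_range, nsmul_eq_mul]
    push_cast
    have := harm_le (2 * K * M')
    push_cast at this
    gcongr
  have hs1 := sum_powerset_le Ω (fun p => (1 : ℝ) / (p.2 : ℝ)) (fun p => by positivity) σ hσ1 hΩs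
    (R + 1)
  have hΩc : (Ω.card : ℝ) = ((L : ℝ) + 1) * (2 * K * M') := by
    rw [hΩ, card_product, card_range, Nat.card_Icc, Nat.add_sub_cancel]
    push_cast
    ring
  have hΩ1 : (1 : ℝ) ≤ Ω.card := by
    rw [hΩc]
    have : (1 : ℝ) ≤ K * M' := by nlinarith
    nlinarith
  have hs2 := sum_powerset_le Ω (fun _ => (1 : ℝ)) (fun p => by positivity) (Ω.card : ℝ) hΩ1
    (by simp) (R + 1)
  rw [hΩc] at hs2
  simp only [Finset.prod_const_one] at hs2
  have hs3 : Λ * (L + 6) ^ ((R + 1) ^ 2) * ∑ P ∈ Ω.powerset.filter (fun P => P.card ≤ R + 1),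
      ∏ p ∈ P, (1 : ℝ) / (p.2 : ℝ) ≤ Λ * (L + 6) ^ ((R + 1) ^ 2) * (3 * σ ^ (R + 1)) :=
    mul_le_mul_of_nonneg_left hs1 (by positivity)
  exact add_le_add hs3 hs2

end Pool.Agent.Helper45K9.GR
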