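import Mathlib
import Pool.Agent.Helper45K9.GR.Cnt2

/-!
# The gcd recursion for prime triples: growth of the number of medium steps
-/

set_option autoImplicit false

namespace Pool.Agent.Helper45K9.GR

open Finset Pool.Agent.R701.GD

variable {K D s N f : ℕ} {A : ℕ → ℕ}

/-- the steps with gcd at least `s / M` in a residue class modulo 3 -/
def Gc (D s f : ℕ) (A : ℕ → ℕ) (M c : ℕ) : Finset ℕ := (G D s f A M).filter (fun n => n % 3 = c)

lemma exists_class (M : ℕ) : ∃ c, (G D s f A M).card ≤ 3 * (Gc D s f A M c).card := by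
  by_contra hcon
  push Not at hcon
  have h1 : (G D s f A M).card = ∑ c ∈ range 3, ((G D s f A M).filter (fun n => n % 3 = c)).card := by
    apply Finset.card_eq_sum_card_fiberwise
    intro n _
    simp only [coe_range, Set.mem_Iio]
    omega
  rw [Finset.sum_range_succ, Finset.sum_range_succ, Finset.sum_range_succ] at h1
  simp only [Finset.sum_range_zero, zero_add] at h1
  have h2 := hcon 0
  have h3 := hcon 1
  have h4 := hcon 2
  unfold Gc at h2 h3 h4
  omega

/-- from one scale to the next -/
lemma grow (c L M M' R : ℕ) (hL : 1 ≤ L) :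
    R * (Gc D s f A M c).card ≤ (G D s f A M').card
      + R * ((Bad D s f A c L M M' R).card + (f / L + 1)) := by
  classical
  set X := Gc D s f A M c with hX
  have hXG : ∀ n ∈ X, n ∈ G D s f A M ∧ n % 3 = c := by
    intro n hn
    rw [hX, Gc, mem_filter] at hn
    exact hn
  set Iso := X.filter (fun n => ¬ ∃ n' ∈ X, n < n' ∧ n' ≤ n + L) with hIso
  have hIsoc : Iso.card ≤ f / L + 1 := by
    have : Iso.card ≤ (range (f / L + 1)).card := by
      apply card_le_card_of_injOn (fun n => n / L)
      · intro n hn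
        have hn' : n ∈ Iso := hn
        rw [hIso, mem_filter] at hn'
        have h1 := (mem_W.mp (mem_G.mp (hXG n hn'.1).1).1).1.2
        simp only [coe_range, Set.mem_Iio]
        exact Nat.lt_succ_of_le (Nat.div_le_div_right h1)
      · intro n₁ h1 n₂ h2 heq
        have h1' : n₁ ∈ Iso := h1
        have h2' : n₂ ∈ Iso := h2
        rw [hIso, mem_filter] at h1' h2'
        simp only at heq
        have key : ∀ x y : ℕ, x / L = y / L → y ∈ X →
            (¬ ∃ n' ∈ X, x < n' ∧ n' ≤ x + L) → ¬ x < y := by
          intro x y hxy hy hx2 hlt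
          apply hx2
          refine ⟨y, hy, hlt, ?_⟩
          have a1 := Nat.div_add_mod x L
          have a2 := Nat.div_add_mod y L
          have a3 := Nat.mod_lt y (show 0 < L by omega)
          rw [hxy] at a1
          omega
        have k1 := key n₁ n₂ heq h2'.1 h1'.2
        have k2 := key n₂ n₁ heq.symm h1'.1 h2'.2
        omega
    simpa using this
  set Y := X \ (Bad D s f A c L M M' R ∪ Iso) with hY
  have hYc : X.card ≤ Y.card + ((Bad D s f A c L M M' R).card + Iso.card) := by
    have h1 := card_le_card_sdiff_add_card (s := X) (t := Bad D s f A c L M M' R ∪ Iso)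
    have h2 := card_union_le (Bad D s f A c L M M' R) Iso
    rw [← hY] at h1
    omega
  -- the next element
  have hnext : ∀ n ∈ Y, ∃ n' ∈ X, n < n' ∧ (∀ x ∈ X, n < x → n' ≤ x) ∧
      R ≤ ((G D s f A M').filter (fun k => n < k ∧ k < n')).card := by
    intro n hn
    rw [hY, mem_sdiff, mem_union, not_or] at hn
    obtain ⟨hnX, hnB, hnI⟩ := hn
    rw [hIso, mem_filter] at hnI
    push Not at hnI
    obtain ⟨n₁, hn₁, hlt, hle⟩ := hnI hnX
    have hne : (X.filter (fun x => n < x)).Nonempty := ⟨n₁, by simp [hn₁, hlt]⟩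
    set n' := (X.filter (fun x => n < x)).min' hne with hn'
    have hmem := (X.filter (fun x => n < x)).min'_mem hne
    rw [← hn', mem_filter] at hmem
    have hmin : ∀ x ∈ X, n < x → n' ≤ x := by
      intro x hx hnx
      exact min'_le _ _ (by simp [hx, hnx])
    refine ⟨n', hmem.1, hmem.2, hmin, ?_⟩
    by_contra hlt2
    push Not at hlt2
    apply hnB
    rw [mem_Bad]
    exact ⟨(hXG n hnX).1, (hXG n hnX).2, n', (hXG n' hmem.1).1, (hXG n' hmem.1).2, hmem.2,
      (hmin n₁ hn₁ hlt).trans hle, hlt2⟩
  choose! nx h1 h2 h3 h4 using hnext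
  have hdisj : ∀ n₁ ∈ Y, ∀ n₂ ∈ Y, n₁ ≠ n₂ →
      Disjoint ((G D s f A M').filter (fun k => n₁ < k ∧ k < nx n₁))
        ((G D s f A M').filter (fun k => n₂ < k ∧ k < nx n₂)) := by
    intro n₁ hn₁ n₂ hn₂ hne
    rw [Finset.disjoint_left]
    intro k hk1 hk2
    rw [mem_filter] at hk1 hk2
    have x1 : n₁ ∈ X := by rw [hY, mem_sdiff] at hn₁; exact hn₁.1
    have x2 : n₂ ∈ X := by rw [hY, mem_sdiff] at hn₂; exact hn₂.1
    rcases Nat.lt_or_gt_of_ne hne with hlt | hlt
    · have := h3 n₁ hn₁ n₂ x2 hlt
      omega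
    · have := h3 n₂ hn₂ n₁ x1 hlt
      omega
  have hcard : R * Y.card ≤ (G D s f A M').card := by
    calc R * Y.card = ∑ _n ∈ Y, R := by rw [Finset.sum_const, smul_eq_mul, mul_comm]
      _ ≤ ∑ n ∈ Y, ((G D s f A M').filter (fun k => n < k ∧ k < nx n)).card :=
          Finset.sum_le_sum h4
      _ = (Y.biUnion (fun n => (G D s f A M').filter (fun k => n < k ∧ k < nx n))).card := by
          rw [Finset.card_biUnion hdisj]
      _ ≤ (G D s f A M').card := by
          apply card_le_card
          rw [Finset.biUnion_subset]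
          intro n _
          exact filter_subset _ _
  calc R * X.card ≤ R * (Y.card + ((Bad D s f A c L M M' R).card + Iso.card)) :=
        Nat.mul_le_mul_left _ hYc
    _ = R * Y.card + R * ((Bad D s f A c L M M' R).card + Iso.card) := by ring
    _ ≤ (G D s f A M').card + R * ((Bad D s f A c L M M' R).card + (f / L + 1)) := by
        gcongr

end Pool.Agent.Helper45K9.GR
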