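import Mathlib
import Pool.Agent.Helper45K9.GR.Grow

/-!
# The gcd recursion for prime triples: no fast descent, quantitative version
-/

set_option autoImplicit false

namespace Pool.Agent.Helper45K9.GR

open Finset Pool.Agent.R701.GD

variable {K D s N f : ℕ} {A : ℕ → ℕ}

/-- numerical part of the estimate of `Bad` -/
lemma bad_num (K D Y M M' s σ : ℝ) (r e : ℕ) (hK : 1 ≤ K) (hD : 1 ≤ D)
    (hKY : K ≤ Y) (hDY : D ≤ Y) (hY : 5120 ≤ Y) (hM : 1 ≤ M) (hs : 0 < s)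
    (he : e = 2 * r ^ 2 + 3 * r + 1) (hM' : M' = Y ^ (17 + e) * M ^ 2)
    (hσ : σ = (Y + 1) * Y) (hbig : Y ^ (12 + 3 * r) * M' ^ (r + 1) ≤ s) :
    (48 * K ^ 3 * D ^ 2 * Y * M ^ 2 + 1) *
      ((256 * K ^ 3 * D * Y * s / M' + 5120 * K ^ 4 * D ^ 3 * Y ^ 2)
        * (Y + 6) ^ (r ^ 2) * (3 * σ ^ r)
        + 3 * ((Y + 1) * (2 * K * M')) ^ r) ≤ 3 * s / Y ^ 4 := by
  have hY0 : 0 < Y := by linarith
  have hY1 : 1 ≤ Y := by linarith
  have hM'0 : 0 < M' := by rw [hM']; positivity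
  have hM'1 : 1 ≤ M' := by
    rw [hM']
    have h1 : 1 ≤ Y ^ (17 + e) := one_le_pow₀ hY1
    have h2 : 1 ≤ M ^ 2 := one_le_pow₀ hM
    nlinarith
  have a1 : 48 * K ^ 3 * D ^ 2 * Y * M ^ 2 + 1 ≤ Y ^ 7 * M ^ 2 := by
    have e1 : 48 * K ^ 3 * D ^ 2 * Y * M ^ 2 ≤ 48 * Y ^ 3 * Y ^ 2 * Y * M ^ 2 := by gcongr
    have e2 : 1 ≤ Y ^ 6 * M ^ 2 := one_le_mul_of_one_le_of_one_le (one_le_pow₀ hY1) (one_le_pow₀ hM)
    have e3 : 49 * (Y ^ 6 * M ^ 2) ≤ Y * (Y ^ 6 * M ^ 2) := by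
      apply mul_le_mul_of_nonneg_right _ (by positivity)
      linarith
    calc 48 * K ^ 3 * D ^ 2 * Y * M ^ 2 + 1 ≤ 48 * Y ^ 3 * Y ^ 2 * Y * M ^ 2 + 1 := by linarith
      _ = 48 * (Y ^ 6 * M ^ 2) + 1 := by ring
      _ ≤ 49 * (Y ^ 6 * M ^ 2) := by linarith
      _ ≤ Y * (Y ^ 6 * M ^ 2) := e3
      _ = _ := by ring
  have a2 : 256 * K ^ 3 * D * Y * s / M' ≤ Y ^ 6 * s / M' := by
    apply div_le_div_of_nonneg_right _ hM'0.le
    calc 256 * K ^ 3 * D * Y * s ≤ Y * Y ^ 3 * Y * Y * s := by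
          gcongr
          linarith
      _ = _ := by ring
  have a3 : 5120 * K ^ 4 * D ^ 3 * Y ^ 2 ≤ Y ^ 10 := by
    calc 5120 * K ^ 4 * D ^ 3 * Y ^ 2 ≤ Y * Y ^ 4 * Y ^ 3 * Y ^ 2 := by gcongr
      _ = _ := by ring
  have a4 : (Y + 6) ^ (r ^ 2) ≤ Y ^ (2 * r ^ 2) := by
    rw [pow_mul]
    apply pow_le_pow_left₀ (by positivity)
    nlinarith
  have a5 : 3 * σ ^ r ≤ Y ^ (3 * r + 1) := by
    have e1 : σ ^ r ≤ Y ^ (3 * r) := by
      rw [pow_mul, hσ]
      apply pow_le_pow_left₀ (by positivity)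
      have : (Y + 1) * Y ≤ (Y * Y) * Y := by
        apply mul_le_mul_of_nonneg_right _ hY0.le
        nlinarith
      calc (Y + 1) * Y ≤ (Y * Y) * Y := this
        _ = Y ^ 3 := by ring
    have hσ0 : 0 ≤ σ ^ r := by rw [hσ]; positivity
    calc 3 * σ ^ r ≤ Y * Y ^ (3 * r) := mul_le_mul (by linarith) e1 hσ0 hY0.le
      _ = _ := by ring
  have a6 : 3 * ((Y + 1) * (2 * K * M')) ^ r ≤ Y ^ (3 * r + 1) * M' ^ r := by
    have e1 : ((Y + 1) * (2 * K * M')) ^ r ≤ (Y ^ 3 * M') ^ r := by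
      apply pow_le_pow_left₀ (by positivity)
      calc (Y + 1) * (2 * K * M') ≤ (2 * Y) * (2 * Y * M') := by
            apply mul_le_mul (by linarith) _ (by positivity) (by positivity)
            gcongr
        _ = (4 * Y ^ 2) * M' := by ring
        _ ≤ (Y * Y ^ 2) * M' := by
            gcongr
            linarith
        _ = _ := by ring
    calc 3 * ((Y + 1) * (2 * K * M')) ^ r ≤ Y * (Y ^ 3 * M') ^ r :=
          mul_le_mul (by linarith) e1 (by positivity) hY0.le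
      _ = _ := by rw [mul_pow, ← pow_mul]; ring
  have b1 : (256 * K ^ 3 * D * Y * s / M' + 5120 * K ^ 4 * D ^ 3 * Y ^ 2) * (Y + 6) ^ (r ^ 2)
      * (3 * σ ^ r) ≤ (Y ^ 6 * s / M' + Y ^ 10) * Y ^ (2 * r ^ 2) * Y ^ (3 * r + 1) := by
    have hσ0 : 0 ≤ 3 * σ ^ r := by rw [hσ]; positivity
    apply mul_le_mul _ a5 hσ0 (by positivity)
    apply mul_le_mul _ a4 (by positivity) (by positivity)
    linarith
  have b2 : (256 * K ^ 3 * D * Y * s / M' + 5120 * K ^ 4 * D ^ 3 * Y ^ 2) * (Y + 6) ^ (r ^ 2)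
      * (3 * σ ^ r) + 3 * ((Y + 1) * (2 * K * M')) ^ r ≤
      (Y ^ 6 * s / M' + Y ^ 10) * Y ^ (2 * r ^ 2) * Y ^ (3 * r + 1)
        + Y ^ (3 * r + 1) * M' ^ r := add_le_add b1 a6
  have hσ0 : 0 ≤ 3 * σ ^ r := by rw [hσ]; positivity
  have hnn : 0 ≤ (256 * K ^ 3 * D * Y * s / M' + 5120 * K ^ 4 * D ^ 3 * Y ^ 2) * (Y + 6) ^ (r ^ 2)
      * (3 * σ ^ r) + 3 * ((Y + 1) * (2 * K * M')) ^ r := by positivity
  refine (mul_le_mul a1 b2 hnn (by positivity)).trans ?_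
  -- three terms
  have hYe : Y ^ (2 * r ^ 2) * Y ^ (3 * r + 1) = Y ^ e := by
    rw [← pow_add, he, ← add_assoc]
  have c1 : Y ^ 7 * M ^ 2 * (Y ^ 6 * s / M' * Y ^ e) ≤ s / Y ^ 4 := by
    rw [hM']
    have : Y ^ 7 * M ^ 2 * (Y ^ 6 * s / (Y ^ (17 + e) * M ^ 2) * Y ^ e) = s / Y ^ 4 := by
      have hM0 : M ≠ 0 := by linarith
      rw [pow_add Y 17 e]
      field_simp
    rw [this]
  have hMM' : M ^ 2 ≤ M' := by
    rw [hM']
    have h1 : 1 ≤ Y ^ (17 + e) := one_le_pow₀ hY1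
    have h2 : 0 ≤ M ^ 2 := by positivity
    nlinarith
  have c3 : Y ^ 7 * M ^ 2 * (Y ^ (3 * r + 1) * M' ^ r) ≤ s / Y ^ 4 := by
    rw [le_div_iff₀ (by positivity)]
    calc Y ^ 7 * M ^ 2 * (Y ^ (3 * r + 1) * M' ^ r) * Y ^ 4
        = Y ^ (12 + 3 * r) * (M ^ 2 * M' ^ r) := by
          have : Y ^ (12 + 3 * r) = Y ^ 7 * Y ^ (3 * r + 1) * Y ^ 4 := by
            rw [← pow_add, ← pow_add]
            congr 1
            ring
          rw [this]
          ring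
      _ ≤ Y ^ (12 + 3 * r) * (M' * M' ^ r) := by gcongr
      _ = Y ^ (12 + 3 * r) * M' ^ (r + 1) := by ring
      _ ≤ s := hbig
  have c2 : Y ^ 7 * M ^ 2 * (Y ^ 10 * Y ^ e) ≤ s / Y ^ 4 := by
    rw [le_div_iff₀ (by positivity)]
    calc Y ^ 7 * M ^ 2 * (Y ^ 10 * Y ^ e) * Y ^ 4 = Y ^ 4 * (Y ^ (17 + e) * M ^ 2) := by
          rw [pow_add Y 17 e]; ring
      _ = Y ^ 4 * M' := by rw [hM']
      _ ≤ Y ^ (12 + 3 * r) * M' ^ (r + 1) := by
          apply mul_le_mul _ _ hM'0.le (by positivity)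
          · exact pow_le_pow_right₀ hY1 (by omega)
          · exact le_self_pow₀ hM'1 (by omega)
      _ ≤ s := hbig
  calc Y ^ 7 * M ^ 2 * ((Y ^ 6 * s / M' + Y ^ 10) * Y ^ (2 * r ^ 2) * Y ^ (3 * r + 1)
        + Y ^ (3 * r + 1) * M' ^ r)
      = Y ^ 7 * M ^ 2 * (Y ^ 6 * s / M' * (Y ^ (2 * r ^ 2) * Y ^ (3 * r + 1)))
        + Y ^ 7 * M ^ 2 * (Y ^ 10 * (Y ^ (2 * r ^ 2) * Y ^ (3 * r + 1)))
        + Y ^ 7 * M ^ 2 * (Y ^ (3 * r + 1) * M' ^ r) := by ring
    _ = Y ^ 7 * M ^ 2 * (Y ^ 6 * s / M' * Y ^ e) + Y ^ 7 * M ^ 2 * (Y ^ 10 * Y ^ e)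
        + Y ^ 7 * M ^ 2 * (Y ^ (3 * r + 1) * M' ^ r) := by rw [hYe]
    _ ≤ s / Y ^ 4 + s / Y ^ 4 + s / Y ^ 4 := by linarith
    _ = 3 * s / Y ^ 4 := by ring

/-- the bad steps and the isolated steps are few -/
lemma few (h : Dat K D s N f A) (c M M' R Y e : ℕ) (hY : 5120 ≤ Y) (hYK : 192 * K ^ 2 * D ≤ Y)
    (hM : 1 ≤ M) (he : e = 2 * (R + 1) ^ 2 + 3 * (R + 1) + 1)
    (hM' : M' = Y ^ (17 + e) * M ^ 2)
    (hlog : 1 + Real.log (2 * K * s) ≤ Y)
    (hbig : Y ^ (12 + 3 * (R + 1)) * M' ^ (R + 1 + 1) ≤ s) :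
    48 * K * D * ((Bad D s f A c Y M M' R).card + (f / Y + 1)) ≤ s := by
  have hK := h.K1
  have hD := h.D2
  have hs := h.s1
  have hY0 : 0 < Y := by omega
  have hKY : K ≤ Y := by
    calc K = K * 1 := by ring
      _ ≤ K * (192 * K * D) := by
          apply Nat.mul_le_mul_left
          exact Nat.one_le_iff_ne_zero.mpr (by positivity)
      _ = 192 * K ^ 2 * D := by ring
      _ ≤ Y := hYK
  have hDY : D ≤ Y := by
    calc D = 1 * D := by ring
      _ ≤ (192 * K ^ 2) * D := by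
          apply Nat.mul_le_mul_right
          exact Nat.one_le_iff_ne_zero.mpr (by positivity)
      _ ≤ Y := hYK
  have hM'1 : 1 ≤ M' := by
    rw [hM']
    exact Nat.one_le_iff_ne_zero.mpr (by positivity)
  have hMM : M ≤ M' := by
    rw [hM']
    calc M = M * 1 := by ring
      _ ≤ M * (Y ^ (17 + e) * M) := by
          apply Nat.mul_le_mul_left
          exact Nat.one_le_iff_ne_zero.mpr (by positivity)
      _ = _ := by ring
  have hM'2 : M' ^ 2 ≤ M' ^ (R + 1 + 1) := Nat.pow_le_pow_right (by omega) (by omega)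
  have hY12 : 10 * K < Y ^ (12 + 3 * (R + 1)) := by
    calc 10 * K < Y * Y := by nlinarith
      _ = Y ^ 2 := by ring
      _ ≤ Y ^ (12 + 3 * (R + 1)) := Nat.pow_le_pow_right hY0 (by omega)
  have h10 : 10 * K * M' ^ 2 < s := by
    calc 10 * K * M' ^ 2 < Y ^ (12 + 3 * (R + 1)) * M' ^ 2 :=
          Nat.mul_lt_mul_of_pos_right hY12 (by positivity)
      _ ≤ Y ^ (12 + 3 * (R + 1)) * M' ^ (R + 1 + 1) := Nat.mul_le_mul_left _ hM'2
      _ ≤ s := hbig
  have hM's : M' ≤ s := by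
    have : M' ≤ M' ^ 2 := Nat.le_self_pow (by norm_num) _
    have h2 : M' ^ 2 ≤ 10 * K * M' ^ 2 := Nat.le_mul_of_pos_left _ (by omega)
    omega
  have hYs : Y ≤ s := by
    have h1 : Y ≤ Y ^ (12 + 3 * (R + 1)) := Nat.le_self_pow (by omega) _
    have h2 : Y ^ (12 + 3 * (R + 1)) ≤ Y ^ (12 + 3 * (R + 1)) * M' ^ (R + 1 + 1) :=
      Nat.le_mul_of_pos_right _ (by positivity)
    omega
  have hsR : (0 : ℝ) < s := by exact_mod_cast (show 0 < s by omega)
  have hKR : (1 : ℝ) ≤ K := by exact_mod_cast hK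
  have hDR : (1 : ℝ) ≤ D := by exact_mod_cast (show 1 ≤ D by omega)
  have hYR : (5120 : ℝ) ≤ Y := by exact_mod_cast hY
  have hYR0 : (0 : ℝ) < Y := by linarith
  have hσ : ((Y : ℝ) + 1) * (1 + Real.log ((2 * K * M' : ℕ) : ℝ)) ≤ ((Y : ℝ) + 1) * Y := by
    apply mul_le_mul_of_nonneg_left _ (by positivity)
    refine le_trans ?_ hlog
    have : Real.log ((2 * K * M' : ℕ) : ℝ) ≤ Real.log (2 * K * s) := by
      apply Real.log_le_log
      · have : 0 < 2 * K * M' := by positivity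
        exact_mod_cast this
      · exact_mod_cast Nat.mul_le_mul_left _ hM's
    linarith
  have hB := Bad_card h c Y M M' R (by omega) hM hMM h10 _ hσ
  have hnum := bad_num K D Y M M' s (((Y : ℝ) + 1) * Y) (R + 1) e hKR hDR
    (by exact_mod_cast hKY) (by exact_mod_cast hDY) hYR (by exact_mod_cast hM) hsR he
    (by rw [hM']; push_cast; ring) rfl (by exact_mod_cast hbig)
  have hB2 := hB.trans hnum
  -- final estimate
  have f1 : (48 : ℝ) * K * D * (Bad D s f A c Y M M' R).card ≤ s / 4 := by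
    have hKD : (K : ℝ) * D ≤ Y := by
      have : K * D ≤ Y := by
        calc K * D = K * 1 * D := by ring
          _ ≤ K * (192 * K) * D := by gcongr; omega
          _ = 192 * K ^ 2 * D := by ring
          _ ≤ Y := hYK
      exact_mod_cast this
    calc (48 : ℝ) * K * D * (Bad D s f A c Y M M' R).card
        = 48 * (K * D) * (Bad D s f A c Y M M' R).card := by ring
      _ ≤ 48 * Y * (3 * s / Y ^ 4) := by gcongr
      _ = 144 * s / Y ^ 3 := by field_simp; ring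
      _ ≤ s / 4 := by
          rw [div_le_div_iff₀ (by positivity) (by norm_num)]
          have : (576 : ℝ) ≤ Y ^ 3 := by
            calc (576 : ℝ) ≤ 5120 := by norm_num
              _ ≤ Y := hYR
              _ ≤ Y ^ 3 := le_self_pow₀ (by linarith) (by norm_num)
          nlinarith
  have f2 : (48 : ℝ) * K * D * ((f / Y : ℕ) : ℝ) ≤ s / 4 := by
    have e1 : ((f / Y : ℕ) : ℝ) ≤ (f : ℝ) / Y := Nat.cast_div_le
    have e2 : (f : ℝ) ≤ K * s := by exact_mod_cast h.fK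
    have e3 : (192 : ℝ) * K ^ 2 * D ≤ Y := by exact_mod_cast hYK
    calc (48 : ℝ) * K * D * ((f / Y : ℕ) : ℝ) ≤ 48 * K * D * ((K * s) / Y) := by
          gcongr
          exact e1.trans (by gcongr)
      _ = (192 * K ^ 2 * D) * (s / (4 * Y)) := by field_simp; ring
      _ ≤ Y * (s / (4 * Y)) := by gcongr
      _ = s / 4 := by field_simp
  have f3 : (48 : ℝ) * K * D * 1 ≤ s / 4 := by
    have : 192 * K * D ≤ s := by
      calc 192 * K * D = 192 * K * 1 * D := by ring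
        _ ≤ 192 * K * K * D := by gcongr
        _ = 192 * K ^ 2 * D := by ring
        _ ≤ Y := hYK
        _ ≤ s := hYs
    have : (192 : ℝ) * K * D ≤ s := by exact_mod_cast this
    linarith
  have : (48 : ℝ) * K * D * ((Bad D s f A c Y M M' R).card + (((f / Y : ℕ) : ℝ) + 1)) ≤ s := by
    have : (48 : ℝ) * K * D * ((Bad D s f A c Y M M' R).card + (((f / Y : ℕ) : ℝ) + 1))
        = 48 * K * D * (Bad D s f A c Y M M' R).card + 48 * K * D * ((f / Y : ℕ) : ℝ)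
          + 48 * K * D * 1 := by ring
    rw [this]
    linarith
  exact_mod_cast this

/-- the scales -/
def Ms (Y θ : ℕ) : ℕ → ℕ
  | 0 => Y
  | i + 1 => Y ^ θ * Ms Y θ i ^ 2

lemma Ms_mul (Y θ i : ℕ) : Ms Y θ i * Y ^ θ = Y ^ ((θ + 1) * 2 ^ i) := by
  induction i with
  | zero => simp [Ms]; ring
  | succ i ih =>
    calc Ms Y θ (i + 1) * Y ^ θ = (Ms Y θ i * Y ^ θ) ^ 2 := by simp only [Ms]; ring
      _ = (Y ^ ((θ + 1) * 2 ^ i)) ^ 2 := by rw [ih]
      _ = Y ^ ((θ + 1) * 2 ^ (i + 1)) := by rw [← pow_mul]; congr 1; ring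

lemma Ms_pos (Y θ i : ℕ) (hY : 1 ≤ Y) : 1 ≤ Ms Y θ i := by
  induction i with
  | zero => exact hY
  | succ i ih =>
    simp only [Ms]
    exact Nat.one_le_iff_ne_zero.mpr (by positivity)

/-- no descent to `(1 - 1/D) N` within `K s` steps once `s` is large in terms of `K` and `D` -/
theorem core2 (h : Dat K D s N f A) (J ρ Y r e : ℕ) (hρ : 1 ≤ ρ) (hr : r = 4 * ρ + 1)
    (he : e = 2 * r ^ 2 + 3 * r + 1) (hY : 5120 ≤ Y) (hYK : 192 * K ^ 2 * D ≤ Y)
    (hlog : 1 + Real.log (2 * K * s) ≤ Y) (hJ : 4 * K ^ 2 * D < ρ ^ J)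
    (hbig : Y ^ (12 + 3 * r + (18 + e) * 2 ^ J * (r + 1)) ≤ s) : False := by
  have hK := h.K1
  have hD := h.D2
  have hs := h.s1
  have hY0 : 0 < Y := by omega
  set M : ℕ → ℕ := Ms Y (17 + e) with hMdef
  have hMle : ∀ i, M i ≤ Y ^ ((18 + e) * 2 ^ i) := by
    intro i
    have h1 := Ms_mul Y (17 + e) i
    have h2 : (17 + e + 1) = 18 + e := by ring
    rw [h2] at h1
    rw [← h1]
    exact Nat.le_mul_of_pos_right _ (by positivity)
  have hM1 : ∀ i, 1 ≤ M i := fun i => Ms_pos Y _ i (by omega)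
  have hstepbig : ∀ i, i < J → Y ^ (12 + 3 * (4 * ρ + 1)) * (M (i + 1)) ^ (4 * ρ + 1 + 1) ≤ s := by
    intro i hi
    calc Y ^ (12 + 3 * (4 * ρ + 1)) * (M (i + 1)) ^ (4 * ρ + 1 + 1)
        ≤ Y ^ (12 + 3 * r) * (Y ^ ((18 + e) * 2 ^ J)) ^ (r + 1) := by
          rw [hr]
          gcongr
          refine (hMle (i + 1)).trans ?_
          apply Nat.pow_le_pow_right hY0
          apply Nat.mul_le_mul_left
          exact Nat.pow_le_pow_right (by norm_num) hi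
      _ = Y ^ (12 + 3 * r + (18 + e) * 2 ^ J * (r + 1)) := by
          rw [← pow_mul, ← pow_add]
      _ ≤ s := hbig
  set c : ℕ → ℕ := fun i => (G D s f A (M i)).card with hc
  have hc0 : s ≤ 4 * K * D * c 0 := by
    apply h.many
    show 8 * K * D ≤ Y
    calc 8 * K * D = 8 * K * 1 * D := by ring
      _ ≤ 192 * K * K * D := by gcongr; norm_num
      _ = 192 * K ^ 2 * D := by ring
      _ ≤ Y := hYK
  have hcpos : 0 < c 0 := by
    rcases Nat.eq_zero_or_pos (c 0) with h0 | h0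
    · rw [h0] at hc0
      omega
    · exact h0
  have hind : ∀ i, i ≤ J → ρ ^ i * c 0 ≤ c i := by
    intro i
    induction i with
    | zero => intro _; simp
    | succ i ih =>
      intro hi
      have h1 := ih (by omega)
      obtain ⟨cl, hcl⟩ := exists_class (D := D) (s := s) (f := f) (A := A) (M i)
      have h2 := few h cl (M i) (M (i + 1)) (4 * ρ) Y e hY hYK (hM1 i) (by rw [he, hr]) rfl hlog
        (hstepbig i (by omega))
      have h3 := grow (D := D) (s := s) (f := f) (A := A) cl Y (M i) (M (i + 1)) (4 * ρ) (by omega)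
      have h4 : 12 * ((Bad D s f A cl Y (M i) (M (i + 1)) (4 * ρ)).card + (f / Y + 1)) ≤ c 0 := by
        have h5 := h2.trans hc0
        have h6 : (4 * K * D) * (12 * ((Bad D s f A cl Y (M i) (M (i + 1)) (4 * ρ)).card
          + (f / Y + 1))) ≤ (4 * K * D) * c 0 := by
          calc _ = 48 * K * D * ((Bad D s f A cl Y (M i) (M (i + 1)) (4 * ρ)).card
            + (f / Y + 1)) := by ring
            _ ≤ _ := h5
        exact Nat.le_of_mul_le_mul_left h6 (by positivity)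
      have h7 : c 0 ≤ c i := by
        refine le_trans ?_ h1
        exact Nat.le_mul_of_pos_left _ (by positivity)
      have h8 : c i ≤ 3 * (Gc D s f A (M i) cl).card := hcl
      have h9 : c (i + 1) = (G D s f A (M (i + 1))).card := rfl
      rw [← h9] at h3
      -- conclude
      have h10 : ρ * c i ≤ c (i + 1) := by
        generalize (Bad D s f A cl Y (M i) (M (i + 1)) (4 * ρ)).card + (f / Y + 1) = z at *
        generalize (Gc D s f A (M i) cl).card = w at *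
        have e1 : 4 * ρ * c i ≤ 3 * (4 * ρ * w) := by
          calc 4 * ρ * c i ≤ 4 * ρ * (3 * w) := Nat.mul_le_mul_left _ h8
            _ = _ := by ring
        have e2 : 3 * (4 * ρ * z) ≤ ρ * c i := by
          calc 3 * (4 * ρ * z) = ρ * (12 * z) := by ring
            _ ≤ ρ * c i := Nat.mul_le_mul_left _ (h4.trans h7)
        have e3 : 4 * ρ * c i = 4 * (ρ * c i) := by ring
        rw [e3] at e1
        omega
      calc ρ ^ (i + 1) * c 0 = ρ * (ρ ^ i * c 0) := by ring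
        _ ≤ ρ * c i := Nat.mul_le_mul_left _ h1
        _ ≤ c (i + 1) := h10
  have hfin := hind J le_rfl
  have hcJ : c J ≤ f := card_G_le
  have h1 : ρ ^ J * c 0 ≤ (4 * K ^ 2 * D) * c 0 := by
    calc ρ ^ J * c 0 ≤ c J := hfin
      _ ≤ K * s := hcJ.trans h.fK
      _ ≤ K * (4 * K * D * c 0) := Nat.mul_le_mul_left _ hc0
      _ = _ := by ring
  have h2 := Nat.le_of_mul_le_mul_right h1 hcpos
  omega

end Pool.Agent.Helper45K9.GR
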