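import Mathlib
import Pool.Agent.Helper45K9.GR.Core2

/-!
# The gcd recursion for prime triples: choice of the parameters
-/

set_option autoImplicit false

namespace Pool.Agent.Helper45K9.GR

open Finset Pool.Agent.R701.GD

lemma sq_le_two_pow (J : ℕ) (hJ : 4 ≤ J) : J * J ≤ 2 ^ J := by
  induction J, hJ using Nat.le_induction with
  | base => norm_num
  | succ J hJ ih =>
    rw [pow_succ]
    nlinarith

/-- the exponent of the last condition -/
lemma exponent_le (J r e : ℕ) (hJ : 10 ≤ J) (hr : r = 4 * 2 ^ J + 1)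
    (he : e = 2 * r ^ 2 + 3 * r + 1) :
    J * J * (12 + 3 * r + (18 + e) * 2 ^ J * (r + 1)) ≤ 64 ^ J := by
  obtain ⟨t, ht⟩ : ∃ t, t = 2 ^ J := ⟨_, rfl⟩
  have h1 : 1024 ≤ t := by
    rw [ht]
    calc 1024 = 2 ^ 10 := by norm_num
      _ ≤ 2 ^ J := Nat.pow_le_pow_right (by norm_num) hJ
  have h2 : J * J ≤ t := by rw [ht]; exact sq_le_two_pow J (by omega)
  have h64 : 64 ^ J = t ^ 6 := by
    rw [ht, ← pow_mul, mul_comm, pow_mul]
    norm_num
  rw [h64, ← ht]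
  rw [← ht] at hr
  have r1 : r ≤ 5 * t := by omega
  have e1 : 18 + e ≤ 70 * t ^ 2 := by
    have : r ^ 2 ≤ 25 * t ^ 2 := by
      calc r ^ 2 ≤ (5 * t) ^ 2 := Nat.pow_le_pow_left r1 2
        _ = _ := by ring
    have h3 : t ≤ t ^ 2 := Nat.le_self_pow (by norm_num) _
    have h4 : 1024 * t ≤ t ^ 2 := by rw [sq]; exact Nat.mul_le_mul_right _ h1
    rw [he]
    omega
  have r2 : r + 1 ≤ 6 * t := by omega
  have h5 : (18 + e) * t * (r + 1) ≤ 420 * t ^ 4 := by
    calc (18 + e) * t * (r + 1) ≤ (70 * t ^ 2) * t * (6 * t) := by gcongr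
      _ = _ := by ring
  have h6 : 12 + 3 * r ≤ t ^ 4 := by
    have : 1024 * t ≤ t ^ 2 := by rw [sq]; exact Nat.mul_le_mul_right _ h1
    have h7 : t ^ 2 ≤ t ^ 4 := Nat.pow_le_pow_right (by omega) (by norm_num)
    omega
  calc J * J * (12 + 3 * r + (18 + e) * t * (r + 1)) ≤ t * (t ^ 4 + 420 * t ^ 4) := by gcongr
    _ = 421 * t ^ 5 := by ring
    _ ≤ t * t ^ 5 := by
        apply Nat.mul_le_mul_right
        omega
    _ = t ^ 6 := by ring

lemma log_log_large (k : ℕ) : ∃ N₀ : ℕ, ∀ N : ℕ, N₀ ≤ N →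
    k ≤ Nat.log 2 (Nat.log 2 (Nat.sqrt N)) := by
  refine ⟨2 ^ 2 ^ k * 2 ^ 2 ^ k, ?_⟩
  intro N hN
  have h1 : 2 ^ 2 ^ k ≤ Nat.sqrt N := Nat.le_sqrt.mpr hN
  have h2 : 2 ^ k ≤ Nat.log 2 (Nat.sqrt N) := Nat.le_log_of_pow_le (by norm_num) h1
  exact Nat.le_log_of_pow_le (by norm_num) h2

/-- the parameters -/
lemma params (N : ℕ) (hN : 300 ≤ Nat.log 2 (Nat.log 2 (Nat.sqrt N))) (x : ℝ)
    (hx : x = Real.exp (Real.log (Real.log N) ^ 2 / 100)) :
    100 ≤ Nat.sqrt N ∧ 2 ≤ x ∧ 6 * x ≤ N ∧ ⌈x⌉₊ + 1 ≤ Nat.sqrt N ∧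
      ∀ f A, ¬ Dat ⌈2 * x⌉₊ (⌈x⌉₊ + 1) (Nat.sqrt N) N f A := by
  obtain ⟨s, hs⟩ : ∃ s, s = Nat.sqrt N := ⟨_, rfl⟩
  rw [← hs] at hN ⊢
  have hs0 : s ≠ 0 := by
    rintro rfl
    simp at hN
  set L1 := Nat.log 2 s with hL1
  have a1 : 2 ^ L1 ≤ s := Nat.pow_log_le_self 2 hs0
  have a2 : s < 2 ^ (L1 + 1) := Nat.lt_pow_succ_log_self (by norm_num) s
  set L2 := Nat.log 2 L1 with hL2
  have b3 : 300 ≤ L2 := hN
  have hL10 : L1 ≠ 0 := by
    intro h0
    rw [hL2, h0] at b3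
    simp at b3
  have b1 : 2 ^ L2 ≤ L1 := Nat.pow_log_le_self 2 hL10
  have b2 : L1 < 2 ^ (L2 + 1) := Nat.lt_pow_succ_log_self (by norm_num) L1
  obtain ⟨J, hJ⟩ : ∃ J, J = L2 / 6 := ⟨_, rfl⟩
  have c1 : 6 * J ≤ L2 := by omega
  have c2 : L2 + 1 ≤ 6 * J + 6 := by omega
  have c3 : 50 ≤ J := by omega
  have d1 : 2 ^ (6 * J) ≤ L1 := (Nat.pow_le_pow_right (by norm_num) c1).trans b1
  have d2 : L1 + 1 ≤ 2 ^ (6 * J + 6) :=
    (show L1 + 1 ≤ 2 ^ (L2 + 1) by omega).trans (Nat.pow_le_pow_right (by norm_num) c2)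
  have d3 : s < 2 ^ (2 ^ (6 * J + 6)) := a2.trans_le (Nat.pow_le_pow_right (by norm_num) d2)
  have d4 : 2 ^ (2 ^ (6 * J)) ≤ s := (Nat.pow_le_pow_right (by norm_num) d1).trans a1
  have hNs : N < (s + 1) * (s + 1) := by rw [hs]; exact Nat.lt_succ_sqrt N
  have hNs2 : s * s ≤ N := by rw [hs]; exact Nat.sqrt_le N
  have hN1 : N < 2 ^ (2 ^ (6 * J + 7)) := by
    calc N < (s + 1) * (s + 1) := hNs
      _ ≤ 2 ^ (2 ^ (6 * J + 6)) * 2 ^ (2 ^ (6 * J + 6)) := Nat.mul_le_mul (by omega) (by omega)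
      _ = 2 ^ (2 ^ (6 * J + 7)) := by rw [← pow_add]; congr 1; ring
  have hN2 : 2 ^ (2 ^ (6 * J)) ≤ N := d4.trans ((Nat.le_mul_self s).trans hNs2)
  -- bounds for log log N
  have hNR : (0 : ℝ) < N := by
    have : 0 < N := lt_of_lt_of_le (Nat.pow_pos (by norm_num)) hN2
    exact_mod_cast this
  have l2 : 0 < Real.log 2 := Real.log_pos (by norm_num)
  have l2u : Real.log 2 < 0.7 := by
    have := Real.log_two_lt_d9
    linarith
  have l2l : 0.5 < Real.log 2 := by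
    have := Real.log_two_gt_d9
    linarith
  have f1 : Real.log N ≤ 2 ^ (6 * J + 7) := by
    have : (N : ℝ) ≤ (2 : ℝ) ^ (2 ^ (6 * J + 7)) := by exact_mod_cast hN1.le
    have h2 := Real.log_le_log hNR this
    rw [Real.log_pow] at h2
    push_cast at h2
    have : (0 : ℝ) < 2 ^ (6 * J + 7) := by positivity
    nlinarith
  have f2 : (2 : ℝ) ^ (6 * J) * Real.log 2 ≤ Real.log N := by
    have : (2 : ℝ) ^ (2 ^ (6 * J)) ≤ N := by exact_mod_cast hN2
    have h2 := Real.log_le_log (by positivity) this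
    rw [Real.log_pow] at h2
    push_cast at h2
    exact h2
  have f3 : (2 : ℝ) ^ (6 * J - 1) ≤ Real.log N := by
    refine le_trans ?_ f2
    have : (2 : ℝ) ^ (6 * J) = 2 ^ (6 * J - 1) * 2 := by
      rw [← pow_succ]
      congr 1
      omega
    rw [this]
    have : (0 : ℝ) < 2 ^ (6 * J - 1) := by positivity
    nlinarith
  have hlog0 : 0 < Real.log N := lt_of_lt_of_le (by positivity) f3
  set ℓ := Real.log (Real.log N) with hℓ
  have g1 : ℓ ≤ (6 * J + 7) * Real.log 2 := by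
    have := Real.log_le_log hlog0 f1
    rw [Real.log_pow] at this
    push_cast at this
    exact this
  have g2 : ((6 * J - 1 : ℕ) : ℝ) * Real.log 2 ≤ ℓ := by
    have := Real.log_le_log (by positivity) f3
    rw [Real.log_pow] at this
    exact this
  have g3 : 100 ≤ ℓ := by
    refine le_trans ?_ g2
    have : (200 : ℝ) ≤ ((6 * J - 1 : ℕ) : ℝ) := by exact_mod_cast (show 200 ≤ 6 * J - 1 by omega)
    nlinarith
  have hJR : (50 : ℝ) ≤ J := by exact_mod_cast c3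
  have hx2 : 2 ≤ x := by
    rw [hx]
    have h1 : Real.log 2 ≤ ℓ ^ 2 / 100 := by nlinarith
    calc (2 : ℝ) = Real.exp (Real.log 2) := (Real.exp_log (by norm_num)).symm
      _ ≤ _ := Real.exp_le_exp.2 h1
  -- the bound of `x ^ 3`
  have hx3 : 5184 * x ^ 3 ≤ 2 ^ (J * J) := by
    have h1 : x ^ 3 = Real.exp (3 * (ℓ ^ 2 / 100)) := by
      rw [hx, ← Real.exp_nat_mul]
      norm_num
    have h2 : (5184 : ℝ) ≤ Real.exp (13 * Real.log 2) := by
      have : Real.exp (13 * Real.log 2) = 2 ^ 13 := by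
        rw [mul_comm, Real.exp_mul, Real.exp_log (by norm_num)]
        norm_num
      rw [this]
      norm_num
    have h3 : (2 : ℝ) ^ (J * J) = Real.exp ((J * J) * Real.log 2) := by
      rw [mul_comm ((J : ℝ) * J), Real.exp_mul, Real.exp_log (by norm_num)]
      norm_cast
    rw [h1, h3]
    calc 5184 * Real.exp (3 * (ℓ ^ 2 / 100))
        ≤ Real.exp (13 * Real.log 2) * Real.exp (3 * (ℓ ^ 2 / 100)) := by gcongr
      _ = Real.exp (13 * Real.log 2 + 3 * (ℓ ^ 2 / 100)) := by rw [Real.exp_add]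
      _ ≤ _ := by
          apply Real.exp_le_exp.2
          have h4 : ℓ ^ 2 ≤ ((6 * J + 7) * Real.log 2) ^ 2 := by
            apply pow_le_pow_left₀ (by linarith) g1
          have h5 : ((6 * (J : ℝ) + 7) * Real.log 2) ^ 2 ≤ (6 * J + 7) ^ 2 * 0.7 * Real.log 2 := by
            have : (0 : ℝ) ≤ (6 * J + 7) ^ 2 * Real.log 2 := by positivity
            nlinarith
          have h6 : 13 + 3 * ((6 * (J : ℝ) + 7) ^ 2 * 0.7 / 100) ≤ J * J := by nlinarith
          calc 13 * Real.log 2 + 3 * (ℓ ^ 2 / 100)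
              ≤ 13 * Real.log 2 + 3 * (((6 * (J : ℝ) + 7) ^ 2 * 0.7 * Real.log 2) / 100) := by
                linarith
            _ = (13 + 3 * ((6 * (J : ℝ) + 7) ^ 2 * 0.7 / 100)) * Real.log 2 := by ring
            _ ≤ (J * J) * Real.log 2 := by gcongr
  set K := ⌈2 * x⌉₊ with hK
  set D := ⌈x⌉₊ + 1 with hD
  have hKx : (K : ℝ) ≤ 3 * x := by
    have := (Nat.ceil_lt_add_one (show 0 ≤ 2 * x by linarith)).le
    rw [← hK] at this
    linarith
  have hDx : (D : ℝ) ≤ 3 * x := by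
    have := (Nat.ceil_lt_add_one (show 0 ≤ x by linarith)).le
    rw [hD]
    push_cast
    linarith
  have hK1 : 1 ≤ K := Nat.ceil_pos.mpr (by linarith)
  have hD1 : 1 ≤ D := by omega
  have hKD : 192 * K ^ 2 * D ≤ 2 ^ (J * J) := by
    have : (192 : ℝ) * K ^ 2 * D ≤ 2 ^ (J * J) := by
      calc (192 : ℝ) * K ^ 2 * D ≤ 192 * (3 * x) ^ 2 * (3 * x) := by gcongr
        _ = 5184 * x ^ 3 := by ring
        _ ≤ _ := hx3
    exact_mod_cast this
  have hexp := exponent_le J (4 * 2 ^ J + 1) (2 * (4 * 2 ^ J + 1) ^ 2 + 3 * (4 * 2 ^ J + 1) + 1)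
    (by omega) rfl rfl
  have h64 : 64 ^ J = 2 ^ (6 * J) := by rw [pow_mul]; norm_num
  rw [h64] at hexp
  have hbig : (2 ^ (J * J)) ^ (12 + 3 * (4 * 2 ^ J + 1) + (18 + (2 * (4 * 2 ^ J + 1) ^ 2
      + 3 * (4 * 2 ^ J + 1) + 1)) * 2 ^ J * ((4 * 2 ^ J + 1) + 1)) ≤ s := by
    rw [← pow_mul]
    exact (Nat.pow_le_pow_right (by norm_num) (hexp.trans d1)).trans a1
  have hYs : 2 ^ (J * J) ≤ s := by
    refine le_trans ?_ hbig
    exact Nat.le_self_pow (by omega) _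
  have hDs : 192 * D ≤ s := by
    calc 192 * D = 192 * 1 * D := by ring
      _ ≤ 192 * K ^ 2 * D := by
          gcongr
          exact Nat.one_le_pow _ _ hK1
      _ ≤ 2 ^ (J * J) := hKD
      _ ≤ s := hYs
  have hs100 : 100 ≤ s := by omega
  refine ⟨hs100, hx2, ?_, by omega, ?_⟩
  · have h1 : x ≤ D := by
      have := Nat.le_ceil x
      rw [hD]
      push_cast
      linarith
    have h2 : 6 * D ≤ N := by
      calc 6 * D ≤ 192 * D := by omega
        _ ≤ s := hDs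
        _ ≤ s * s := Nat.le_mul_self s
        _ ≤ N := hNs2
    have h3 : (6 : ℝ) * D ≤ N := by exact_mod_cast h2
    linarith
  · intro f A hDat
    refine core2 hDat J (2 ^ J) (2 ^ (J * J)) (4 * 2 ^ J + 1) _ (Nat.one_le_two_pow) rfl rfl ?_ hKD
      ?_ ?_ hbig
    · calc 5120 ≤ 2 ^ 13 := by norm_num
        _ ≤ 2 ^ (J * J) := Nat.pow_le_pow_right (by norm_num) (by nlinarith)
    · -- the logarithm
      have hsR : (0 : ℝ) < s := by exact_mod_cast (show 0 < s by omega)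
      have hKR : (0 : ℝ) < K := by exact_mod_cast hK1
      have h1 : (2 * K * s : ℝ) ≤ 2 ^ (1 + J * J + 2 ^ (6 * J + 6)) := by
        have : 2 * K * s ≤ 2 ^ (1 + J * J + 2 ^ (6 * J + 6)) := by
          rw [pow_add, pow_add]
          apply Nat.mul_le_mul _ d3.le
          apply Nat.mul_le_mul (by norm_num)
          calc K = K * 1 := by ring
            _ ≤ K * (192 * K * D) := by
                apply Nat.mul_le_mul_left
                exact Nat.one_le_iff_ne_zero.mpr (by positivity)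
            _ = 192 * K ^ 2 * D := by ring
            _ ≤ _ := hKD
        exact_mod_cast this
      have h2 := Real.log_le_log (by positivity) h1
      rw [Real.log_pow] at h2
      have h3 : Real.log (2 * K * s) ≤ ((1 + J * J + 2 ^ (6 * J + 6) : ℕ) : ℝ) := by
        refine h2.trans ?_
        have : (0 : ℝ) ≤ ((1 + J * J + 2 ^ (6 * J + 6) : ℕ) : ℝ) := Nat.cast_nonneg _
        nlinarith
      have h4 : 1 + (1 + J * J + 2 ^ (6 * J + 6)) ≤ 2 ^ (J * J) := by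
        have e1 := sq_le_two_pow J (by omega)
        have e2 : 2 ^ J ≤ 2 ^ (6 * J + 6) := Nat.pow_le_pow_right (by norm_num) (by omega)
        have e3 : 2 ≤ 2 ^ (6 * J + 6) := by
          calc 2 = 2 ^ 1 := by norm_num
            _ ≤ 2 ^ (6 * J + 6) := Nat.pow_le_pow_right (by norm_num) (by omega)
        calc 1 + (1 + J * J + 2 ^ (6 * J + 6)) ≤ 4 * 2 ^ (6 * J + 6) := by omega
          _ = 2 ^ (6 * J + 8) := by
              rw [show 6 * J + 8 = 6 * J + 6 + 2 by ring, pow_add _ (6 * J + 6) 2]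
              ring
          _ ≤ 2 ^ (J * J) := Nat.pow_le_pow_right (by norm_num) (by nlinarith)
      have h5 : ((1 + (1 + J * J + 2 ^ (6 * J + 6)) : ℕ) : ℝ) ≤ ((2 ^ (J * J) : ℕ) : ℝ) := by
        exact_mod_cast h4
      rw [Nat.cast_add, Nat.cast_one] at h5
      linarith
    · rw [← pow_mul]
      have : 4 * K ^ 2 * D < 192 * K ^ 2 * D := by
        have : 0 < K ^ 2 * D := by positivity
        nlinarith
      omega

end Pool.Agent.Helper45K9.GR
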